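import Pool.Agent.Y226.ZG.Loc5
import Pool.Agent.Y92.ZF.Exp

/-!
# The branches at infinity of an algebraic function
-/

set_option autoImplicit false
set_option linter.unusedSectionVars false

open UpperHalfPlane H294ZP Polynomial

namespace Pool.Agent.Y92.ZH

open Pool.Agent.Y226 Pool.Agent.Y226.ZG Pool.Agent.Y92.ZF

section sums

variable {C : Type} [NormedField C] [IsUltrametricDist C]

theorem nsum_lt {ι : Type*} (s : Finset ι) (f : ι → C) {r : ℝ} (hr : 0 < r)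
    (h : ∀ i ∈ s, ‖f i‖ < r) : ‖∑ i ∈ s, f i‖ < r := by
  classical
  induction s using Finset.induction_on with
  | empty => simpa using hr
  | insert a s ha ih =>
    rw [Finset.sum_insert ha]
    exact nadd_lt (h a (Finset.mem_insert_self a s))
      (ih fun i hi => h i (Finset.mem_insert_of_mem hi))

/-- two terms of the largest norm in a vanishing sum -/
theorem two_max {ι : Type} (s : Finset ι) (f : ι → C) (hne : ∃ i ∈ s, f i ≠ 0)
    (h0 : ∑ i ∈ s, f i = 0) : ∃ i ∈ s, ∃ j ∈ s, i ≠ j ∧ f i ≠ 0 ∧ ‖f i‖ = ‖f j‖ ∧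
      ∀ l ∈ s, ‖f l‖ ≤ ‖f i‖ := by
  classical
  obtain ⟨i₀, hi₀, hi₀'⟩ := hne
  obtain ⟨i, hi, hmax⟩ := s.exists_max_image (fun i => ‖f i‖) ⟨i₀, hi₀⟩
  have hpos : 0 < ‖f i‖ := (norm_pos_iff.2 hi₀').trans_le (hmax i₀ hi₀)
  by_contra hcon
  have h1 : ∀ j ∈ s.erase i, ‖f j‖ < ‖f i‖ := by
    intro j hj
    rw [Finset.mem_erase] at hj
    refine lt_of_le_of_ne (hmax j hj.2) fun he => hcon ⟨i, hi, j, hj.2, hj.1.symm,
      norm_pos_iff.1 hpos, he.symm, hmax⟩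
  have h2 := nsum_lt _ _ hpos h1
  rw [← Finset.add_sum_erase s f hi] at h0
  have h3 : f i = -∑ j ∈ s.erase i, f j := by linear_combination h0
  rw [h3, norm_neg] at h2
  exact lt_irrefl _ h2

theorem prod_gt (W : ℝ) (hW0 : 0 < W) (hW1 : W < 1) (d : ℕ) (s : Multiset C) (hs0 : 0 < s.card)
    (hsd : s.card ≤ d) (h : ∀ z ∈ s, W < ‖z‖ ^ d) : W < ‖s.prod‖ := by
  have h1 : ∀ s : Multiset C, (∀ z ∈ s, W < ‖z‖ ^ d) → W ^ s.card ≤ ‖s.prod‖ ^ d ∧
      (0 < s.card → W ^ s.card < ‖s.prod‖ ^ d) := by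
    intro s
    induction s using Multiset.induction_on with
    | empty => intro _; simp
    | cons z s ih =>
      intro h
      obtain ⟨ih1, -⟩ := ih fun y hy => h y (Multiset.mem_cons_of_mem hy)
      have h2 := h z (Multiset.mem_cons_self z s)
      have h3 : W ^ (z ::ₘ s).card < ‖(z ::ₘ s).prod‖ ^ d := by
        rw [Multiset.card_cons, Multiset.prod_cons, norm_mul, mul_pow, pow_succ']
        calc W * W ^ s.card ≤ W * ‖s.prod‖ ^ d := by gcongr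
          _ < ‖z‖ ^ d * ‖s.prod‖ ^ d := by
              refine mul_lt_mul_of_pos_right h2 ?_
              exact (pow_pos hW0 _).trans_le ih1
      exact ⟨h3.le, fun _ => h3⟩
  by_contra hcon
  push Not at hcon
  have h2 := (h1 s h).2 hs0
  have h3 : ‖s.prod‖ ^ d ≤ W ^ s.card :=
    (pow_le_pow_left₀ (norm_nonneg _) hcon d).trans (pow_le_pow_of_le_one hW0.le hW1.le hsd)
  exact absurd h2 (not_lt.2 h3)

end sums

/-- the polynomials of the edges -/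
noncomputable def edge (R : QA[X][X]) (d k m M₀ : ℕ) : QA[X] :=
  ∑ q ∈ (box d).filter (fun q => m * q.2 + k * q.1 = M₀), C (cf R q) * X ^ q.1

theorem edge_coeff (R : QA[X][X]) {d k m M₀ : ℕ} (hm : 0 < m) {q : ℕ × ℕ} (hq : q ∈ box d)
    (hqM : m * q.2 + k * q.1 = M₀) : (edge R d k m M₀).coeff q.1 = cf R q := by
  unfold edge
  rw [finsetSum_coeff, Finset.sum_eq_single q]
  · rw [coeff_C_mul, coeff_X_pow, if_pos rfl, mul_one]
  · intro q' hq' hne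
    rw [coeff_C_mul, coeff_X_pow]
    rw [Finset.mem_filter] at hq'
    have : q.1 ≠ q'.1 := by
      intro h1
      apply hne
      have h2 : m * q'.2 = m * q.2 := by
        have := hq'.2
        rw [← h1] at this
        omega
      have h3 := Nat.eq_of_mul_eq_mul_left hm h2
      exact Prod.ext h1.symm h3
    rw [if_neg this, mul_zero]
  · intro h
    exact absurd (Finset.mem_filter.2 ⟨hq, hqM⟩) h

theorem edge_coeff' (R : QA[X][X]) {d k m M₀ : ℕ} (hm : 0 < m) (b : ℕ) :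
    (edge R d k m M₀).coeff b = 0 ∨ ∃ q ∈ box d, q.1 = b ∧ (edge R d k m M₀).coeff b = cf R q := by
  by_cases h : ∃ q ∈ box d, q.1 = b ∧ m * q.2 + k * q.1 = M₀
  · obtain ⟨q, hq, rfl, hqM⟩ := h
    exact Or.inr ⟨q, hq, rfl, edge_coeff R hm hq hqM⟩
  · left
    push Not at h
    unfold edge
    rw [finsetSum_coeff]
    refine Finset.sum_eq_zero fun q hq => ?_
    rw [Finset.mem_filter] at hq
    rw [coeff_C_mul, coeff_X_pow]
    by_cases hb : b = q.1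
    · exact absurd hq.2 (h q hq.1 hb.symm)
    · rw [if_neg hb, mul_zero]

theorem edge_natDegree (R : QA[X][X]) {d k m M₀ : ℕ} : (edge R d k m M₀).natDegree ≤ d := by
  unfold edge
  refine natDegree_sum_le_of_forall_le _ _ fun q hq => ?_
  refine (natDegree_C_mul_X_pow_le _ _).trans ?_
  have := (Finset.mem_filter.1 hq).1
  simp only [box, Finset.mem_product, Finset.mem_range] at this
  omega

theorem edge_eval₂ {C : Type*} [CommRing C] (φ : QA →+* C) (R : QA[X][X]) (d k m M₀ : ℕ) (v : C) :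
    (edge R d k m M₀).eval₂ φ v =
      ∑ q ∈ (box d).filter (fun q => m * q.2 + k * q.1 = M₀), φ (cf R q) * v ^ q.1 := by
  unfold edge
  rw [eval₂_finsetSum]
  refine Finset.sum_congr rfl fun q _ => ?_
  rw [eval₂_mul, eval₂_C, eval₂_pow, eval₂_X]

section main

variable {C : Type} [NormedField C] [IsUltrametricDist C] [IsAlgClosed C]

/-- the branches of an algebraic function at infinity -/
theorem branch (φ : QA →+* C) {d : ℕ} {R : QA[X][X]} (hBD : BD d R) (hmon : R.Monic)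
    (hU : ∀ q ∈ box d, cf R q ≠ 0 → ‖φ (cf R q)‖ = 1)
    (hrt : ∀ k m M₀, k ≤ d → m ≤ d → M₀ ≤ 2 * d * d → ∀ c, c ≠ 0 → edge R d k m M₀ ≠ 0 →
      (edge R d k m M₀).IsRoot c → ‖φ c‖ = 1)
    {s J : C} (hs : 1 < ‖s‖) (h0 : E2 φ J s R = 0) :
    1 < ‖J‖ ∧ ∃ k m M₀, 0 < k ∧ k ≤ d ∧ 0 < m ∧ m ≤ d ∧ M₀ ≤ 2 * d * d ∧ ‖J‖ ^ m = ‖s‖ ^ k ∧
      ∃ c, c ≠ 0 ∧ edge R d k m M₀ ≠ 0 ∧ (edge R d k m M₀).IsRoot c ∧
        ‖J ^ m * (φ c ^ m * s ^ k)⁻¹ - 1‖ ^ (d * d) * ‖s‖ ≤ 1 := by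
  classical
  have hs0 : s ≠ 0 := norm_pos_iff.1 (one_pos.trans hs)
  have hspos : 0 < ‖s‖ := one_pos.trans hs
  have hle : ∀ q ∈ box d, ‖φ (cf R q)‖ ≤ 1 := by
    intro q hq
    by_cases h : cf R q = 0
    · rw [h, map_zero, norm_zero]; exact zero_le_one
    · exact (hU q hq h).le
  rw [E2_eq_sum hBD] at h0
  -- the leading term
  set q₀ : ℕ × ℕ := (0, R.natDegree) with hq₀
  have hq₀d : q₀ ∈ box d := by
    simp only [box, Finset.mem_product, Finset.mem_range, hq₀]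
    have := hBD.1
    omega
  have hq₀c : cf R q₀ = 1 := by
    simp only [cf, hq₀]
    rw [hmon.coeff_natDegree, coeff_one_zero]
  have hcf0 : ∀ q ∈ box d, cf R q ≠ 0 → q.2 = R.natDegree → q.1 = 0 := by
    intro q _ hq hq2
    by_contra hcon
    apply hq
    simp only [cf, hq2]
    rw [hmon.coeff_natDegree, coeff_one, if_neg (by omega)]
  have hcf1 : ∀ q ∈ box d, cf R q ≠ 0 → q.2 ≤ R.natDegree := by
    intro q _ hq
    by_contra hcon
    apply hq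
    simp only [cf]
    rw [coeff_eq_zero_of_natDegree_lt (show R.natDegree < q.2 by omega), coeff_zero]
  -- `J` is large
  have hJ : 1 < ‖J‖ := by
    by_contra hcon
    push Not at hcon
    rw [← Finset.add_sum_erase _ _ hq₀d] at h0
    have h1 : φ (cf R q₀) * J ^ q₀.1 * s ^ q₀.2 = s ^ R.natDegree := by
      rw [hq₀c, map_one, hq₀, pow_zero, one_mul, one_mul]
    rw [h1] at h0
    have h2 : s ^ R.natDegree =
        -∑ q ∈ (box d).erase q₀, φ (cf R q) * J ^ q.1 * s ^ q.2 := by linear_combination h0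
    have h3 : ‖∑ q ∈ (box d).erase q₀, φ (cf R q) * J ^ q.1 * s ^ q.2‖ < ‖s‖ ^ R.natDegree := by
      refine nsum_lt _ _ (pow_pos hspos _) fun q hq => ?_
      rw [Finset.mem_erase] at hq
      by_cases hc : cf R q = 0
      · rw [hc, map_zero, zero_mul, zero_mul, norm_zero]
        exact pow_pos hspos _
      have h4 : q.2 < R.natDegree := by
        refine lt_of_le_of_ne (hcf1 q hq.2 hc) fun he => hq.1 ?_
        exact Prod.ext (hcf0 q hq.2 hc he) he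
      rw [norm_mul, norm_pow s]
      calc ‖φ (cf R q) * J ^ q.1‖ * ‖s‖ ^ q.2 ≤ 1 * ‖s‖ ^ q.2 := by
            gcongr
            exact nmul_le (hle q hq.2) (npow_le hcon _)
        _ = ‖s‖ ^ q.2 := one_mul _
        _ < ‖s‖ ^ R.natDegree := pow_lt_pow_right₀ hs h4
    rw [← norm_pow, h2, norm_neg] at h3
    exact lt_irrefl _ h3
  have hJ0 : J ≠ 0 := norm_pos_iff.1 (one_pos.trans hJ)
  have hJpos : 0 < ‖J‖ := one_pos.trans hJ
  refine ⟨hJ, ?_⟩
  have hnt : ∀ q ∈ box d, cf R q ≠ 0 →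
      ‖φ (cf R q) * J ^ q.1 * s ^ q.2‖ = ‖J‖ ^ q.1 * ‖s‖ ^ q.2 := by
    intro q hq hc
    rw [norm_mul, norm_mul, hU q hq hc, one_mul, norm_pow, norm_pow]
  -- two dominating terms
  obtain ⟨q₁, q₂, hq₁, hq₂, hlt, hc₁, hc₂, heq, hmax⟩ : ∃ q₁ q₂ : ℕ × ℕ, q₁ ∈ box d ∧ q₂ ∈ box d ∧
      q₁.1 < q₂.1 ∧ cf R q₁ ≠ 0 ∧ cf R q₂ ≠ 0 ∧
      ‖J‖ ^ q₁.1 * ‖s‖ ^ q₁.2 = ‖J‖ ^ q₂.1 * ‖s‖ ^ q₂.2 ∧
      ∀ q ∈ box d, cf R q ≠ 0 → ‖J‖ ^ q.1 * ‖s‖ ^ q.2 ≤ ‖J‖ ^ q₁.1 * ‖s‖ ^ q₁.2 := by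
    obtain ⟨i, hi, j, hj, hij, hi0, hijn, hmx⟩ := two_max (box d)
      (fun q => φ (cf R q) * J ^ q.1 * s ^ q.2) ⟨q₀, hq₀d, by
        show φ (cf R q₀) * J ^ q₀.1 * s ^ q₀.2 ≠ 0
        rw [hq₀c, map_one, one_mul]
        exact mul_ne_zero (pow_ne_zero _ hJ0) (pow_ne_zero _ hs0)⟩ h0
    have hci : cf R i ≠ 0 := by
      intro h
      apply hi0
      simp only [h, map_zero, zero_mul]
    have hcj : cf R j ≠ 0 := by
      intro h
      simp only [h, map_zero, zero_mul, norm_zero, norm_eq_zero] at hijn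
      exact hi0 hijn
    have e1 : ‖J‖ ^ i.1 * ‖s‖ ^ i.2 = ‖J‖ ^ j.1 * ‖s‖ ^ j.2 := by
      rw [← hnt i hi hci, ← hnt j hj hcj]
      exact hijn
    have hne : i.1 ≠ j.1 := by
      intro h
      rw [h] at e1
      have h1 := mul_left_cancel₀ (pow_pos hJpos _).ne' e1
      have h2 := pow_right_injective₀ hspos hs.ne' h1
      exact hij (Prod.ext h h2)
    have hmx' : ∀ q ∈ box d, cf R q ≠ 0 → ‖J‖ ^ q.1 * ‖s‖ ^ q.2 ≤ ‖J‖ ^ i.1 * ‖s‖ ^ i.2 := by
      intro q hq hc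
      rw [← hnt i hi hci, ← hnt q hq hc]
      exact hmx q hq
    rcases lt_or_gt_of_ne hne with h | h
    · exact ⟨i, j, hi, hj, h, hci, hcj, e1, hmx'⟩
    · exact ⟨j, i, hj, hi, h, hcj, hci, e1.symm, fun q hq hc => (hmx' q hq hc).trans e1.le⟩
  have hb₁ : q₁.1 ≤ d ∧ q₁.2 ≤ d := by
    simp only [box, Finset.mem_product, Finset.mem_range] at hq₁
    omega
  have hb₂ : q₂.1 ≤ d ∧ q₂.2 ≤ d := by
    simp only [box, Finset.mem_product, Finset.mem_range] at hq₂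
    omega
  obtain ⟨m, hm⟩ : ∃ m, q₂.1 = q₁.1 + m := ⟨q₂.1 - q₁.1, by omega⟩
  have hm0 : 0 < m := by omega
  have e2 : ‖s‖ ^ q₁.2 = ‖J‖ ^ m * ‖s‖ ^ q₂.2 := by
    rw [hm, pow_add, mul_assoc] at heq
    exact mul_left_cancel₀ (pow_pos hJpos _).ne' heq
  have hlt2 : q₂.2 < q₁.2 := by
    by_contra hcon
    push Not at hcon
    have h1 : ‖s‖ ^ q₁.2 ≤ ‖s‖ ^ q₂.2 := pow_le_pow_right₀ hs.le hcon
    have h2 : ‖s‖ ^ q₂.2 < ‖J‖ ^ m * ‖s‖ ^ q₂.2 := by
      have h3 : 1 < ‖J‖ ^ m := one_lt_pow₀ hJ hm0.ne'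
      have h4 : 0 < ‖s‖ ^ q₂.2 := pow_pos hspos _
      nlinarith
    rw [← e2] at h2
    exact absurd h1 (not_le.2 h2)
  obtain ⟨k, hk⟩ : ∃ k, q₁.2 = q₂.2 + k := ⟨q₁.2 - q₂.2, by omega⟩
  have hk0 : 0 < k := by omega
  have e3 : ‖J‖ ^ m = ‖s‖ ^ k := by
    rw [hk, pow_add, mul_comm] at e2
    exact (mul_right_cancel₀ (pow_pos hspos _).ne' e2).symm
  set M₀ := m * q₁.2 + k * q₁.1 with hM₀
  have hM₀' : m * q₂.2 + k * q₂.1 = M₀ := by
    rw [hM₀, hk, hm]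
    ring
  have hM₀d : M₀ ≤ 2 * d * d := by
    have h1 : m * q₁.2 ≤ d * d := Nat.mul_le_mul (by omega) hb₁.2
    have h2 : k * q₁.1 ≤ d * d := Nat.mul_le_mul (by omega) hb₁.1
    rw [hM₀]
    calc m * q₁.2 + k * q₁.1 ≤ d * d + d * d := Nat.add_le_add h1 h2
      _ = 2 * d * d := by ring
  -- the root of `s`
  obtain ⟨w, hw⟩ := IsAlgClosed.exists_pow_nat_eq s hm0
  have hwn : ‖w‖ ^ m = ‖s‖ := by rw [← norm_pow, hw]
  have hw1 : 1 < ‖w‖ := by
    by_contra hcon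
    push Not at hcon
    have := pow_le_one₀ (n := m) (norm_nonneg w) hcon
    rw [hwn] at this
    exact absurd this (not_le.2 hs)
  have hw0 : w ≠ 0 := norm_pos_iff.1 (one_pos.trans hw1)
  have hwpos : 0 < ‖w‖ := one_pos.trans hw1
  obtain ⟨v, hv⟩ : ∃ v : C, v = J * (w ^ k)⁻¹ := ⟨_, rfl⟩
  have hwk : w ^ k ≠ 0 := pow_ne_zero _ hw0
  have hJv : J = v * w ^ k := by rw [hv]; field_simp
  have hvn : ‖v‖ = 1 := by
    have h1 : ‖v‖ ^ m = 1 := by
      rw [hv, norm_mul, norm_inv, norm_pow, mul_pow, inv_pow, ← pow_mul, mul_comm k m, pow_mul, hwn,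
        e3]
      exact mul_inv_cancel₀ (pow_pos hspos _).ne'
    exact (pow_eq_one_iff_of_nonneg (norm_nonneg _) hm0.ne').1 h1
  have hterm : ∀ q : ℕ × ℕ, J ^ q.1 * s ^ q.2 = v ^ q.1 * w ^ (m * q.2 + k * q.1) := by
    intro q
    rw [hJv, ← hw, mul_pow, ← pow_mul, ← pow_mul, pow_add]
    ring
  have hMle : ∀ q ∈ box d, cf R q ≠ 0 → m * q.2 + k * q.1 ≤ M₀ := by
    intro q hq hc
    have h1 := hmax q hq hc
    have h2 : ∀ q : ℕ × ℕ, ‖J‖ ^ q.1 * ‖s‖ ^ q.2 = ‖w‖ ^ (m * q.2 + k * q.1) := by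
      intro q
      have := congrArg norm (hterm q)
      rw [norm_mul, norm_mul, norm_pow, norm_pow, norm_pow, norm_pow, hvn, one_pow, one_mul] at this
      exact this
    rw [h2, h2] at h1
    exact (pow_le_pow_iff_right₀ hw1).1 h1
  -- the value of the edge polynomial
  set P := edge R d k m M₀ with hP
  have hPv : ‖P.eval₂ φ v‖ ≤ ‖w‖⁻¹ := by
    have h1 : P.eval₂ φ v * w ^ M₀ = -∑ q ∈ (box d).filter (fun q => ¬ m * q.2 + k * q.1 = M₀),
        φ (cf R q) * (J ^ q.1 * s ^ q.2) := by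
      rw [hP, edge_eval₂, Finset.sum_mul]
      have h2 : ∑ q ∈ (box d).filter (fun q => m * q.2 + k * q.1 = M₀),
          φ (cf R q) * v ^ q.1 * w ^ M₀ = ∑ q ∈ (box d).filter (fun q => m * q.2 + k * q.1 = M₀),
          φ (cf R q) * (J ^ q.1 * s ^ q.2) := by
        refine Finset.sum_congr rfl fun q hq => ?_
        rw [hterm, (Finset.mem_filter.1 hq).2]
        ring
      rw [h2]
      have h3 := Finset.sum_filter_add_sum_filter_not (box d) (fun q => m * q.2 + k * q.1 = M₀)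
        (fun q => φ (cf R q) * (J ^ q.1 * s ^ q.2))
      have h4 : ∑ q ∈ box d, φ (cf R q) * (J ^ q.1 * s ^ q.2) = 0 := by
        rw [← h0]
        exact Finset.sum_congr rfl fun q _ => by ring
      rw [h4] at h3
      linear_combination h3
    have h2 : ‖P.eval₂ φ v * w ^ M₀‖ ≤ ‖w‖⁻¹ * ‖w‖ ^ M₀ := by
      rw [h1, norm_neg]
      refine nsum_le _ _ (by positivity) fun q hq => ?_
      rw [Finset.mem_filter] at hq
      by_cases hc : cf R q = 0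
      · rw [hc, map_zero, zero_mul, norm_zero]
        positivity
      · have h5 : m * q.2 + k * q.1 < M₀ := lt_of_le_of_ne (hMle q hq.1 hc) hq.2
        rw [hterm, norm_mul, norm_mul, norm_pow, norm_pow, hvn, one_pow, one_mul, hU q hq.1 hc,
          one_mul]
        obtain ⟨M₁, hM₁⟩ : ∃ M₁, M₀ = M₁ + 1 := ⟨M₀ - 1, by omega⟩
        rw [hM₁, pow_succ]
        have h6 : ‖w‖⁻¹ * (‖w‖ ^ M₁ * ‖w‖) = ‖w‖ ^ M₁ := by field_simp
        rw [h6]
        exact pow_le_pow_right₀ hw1.le (by omega)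
    rw [norm_mul, norm_pow] at h2
    exact le_of_mul_le_mul_right h2 (pow_pos hwpos _)
  have hP0 : P ≠ 0 := by
    intro h
    have h1 := edge_coeff R (d := d) (k := k) (M₀ := M₀) hm0 hq₁ hM₀.symm
    rw [← hP, h, coeff_zero] at h1
    exact hc₁ h1.symm
  have hPl : ‖φ P.leadingCoeff‖ = 1 := by
    rcases edge_coeff' R (d := d) (k := k) (M₀ := M₀) hm0 P.natDegree with h | ⟨q, hq, -, h⟩
    · exact absurd h (leadingCoeff_ne_zero.2 hP0)
    · rw [leadingCoeff]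
      rw [← hP] at h
      rw [h]
      refine hU q hq ?_
      rw [← h]
      exact leadingCoeff_ne_zero.2 hP0
  have hW0 : 0 < ‖w‖⁻¹ := inv_pos.2 hwpos
  have hW1 : ‖w‖⁻¹ < 1 := inv_lt_one_of_one_lt₀ hw1
  have hfac : P.eval₂ φ v = φ P.leadingCoeff * (P.roots.map fun c => v - φ c).prod := by
    conv_lhs => rw [(IsAlgClosed.splits P).eq_prod_roots]
    rw [eval₂_mul, eval₂_C, ← coe_eval₂RingHom, map_multiset_prod, Multiset.map_map]
    congr 2
    refine Multiset.map_congr rfl fun c _ => ?_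
    simp
  rw [hfac, norm_mul, hPl, one_mul] at hPv
  obtain ⟨c, hcr, hcv⟩ : ∃ c ∈ P.roots, ‖v - φ c‖ ^ d ≤ ‖w‖⁻¹ := by
    by_contra hcon
    push Not at hcon
    have hcard : P.roots.card ≤ d := (card_roots' P).trans (by rw [hP]; exact edge_natDegree R)
    by_cases h : 0 < P.roots.card
    · refine absurd hPv (not_le.2 (prod_gt _ hW0 hW1 d _ (by simpa using h) (by simpa using hcard)
        fun z hz => ?_))
      obtain ⟨c, hc, rfl⟩ := Multiset.mem_map.1 hz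
      exact hcon c hc
    · have h1 : P.roots = 0 := Multiset.card_eq_zero.1 (by omega)
      rw [h1, Multiset.map_zero, Multiset.prod_zero, norm_one] at hPv
      exact absurd hPv (not_le.2 hW1)
  have hd0 : 0 < d := by omega
  have hc0 : c ≠ 0 := by
    rintro rfl
    rw [map_zero, sub_zero, hvn, one_pow] at hcv
    exact absurd hcv (not_le.2 hW1)
  have hcn : ‖φ c‖ = 1 := hrt k m M₀ (by omega) (by omega) hM₀d c hc0 hP0 (isRoot_of_mem_roots hcr)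
  refine ⟨k, m, M₀, hk0, by omega, hm0, by omega, hM₀d, e3, c, hc0, hP0, isRoot_of_mem_roots hcr,
    ?_⟩
  have hφc : φ c ≠ 0 := (map_ne_zero φ).2 hc0
  have e4 : J ^ m * (φ c ^ m * s ^ k)⁻¹ = (v * (φ c)⁻¹) ^ m := by
    rw [hJv, ← hw, mul_pow, mul_pow, inv_pow, ← pow_mul, ← pow_mul, mul_comm m k]
    have : w ^ (k * m) ≠ 0 := pow_ne_zero _ hw0
    field_simp
  have e5 : ‖v * (φ c)⁻¹ - 1‖ = ‖v - φ c‖ := by
    have : v * (φ c)⁻¹ - 1 = (v - φ c) * (φ c)⁻¹ := by field_simp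
    rw [this, norm_mul, norm_inv, hcn, inv_one, mul_one]
  have hvc1 : ‖v - φ c‖ ≤ 1 := nsub_le hvn.le hcn.le
  have e6 : ‖J ^ m * (φ c ^ m * s ^ k)⁻¹ - 1‖ ≤ ‖v - φ c‖ := by
    rw [e4, ← e5]
    have := npow_sub_pow (x := v * (φ c)⁻¹) (y := 1) (δ := ‖v * (φ c)⁻¹ - 1‖)
      (by rw [norm_mul, norm_inv, hvn, hcn, inv_one, mul_one]) norm_one.le le_rfl m
    rwa [one_pow] at this
  calc ‖J ^ m * (φ c ^ m * s ^ k)⁻¹ - 1‖ ^ (d * d) * ‖s‖ ≤ ‖v - φ c‖ ^ (d * d) * ‖s‖ := by gcongr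
    _ ≤ ‖v - φ c‖ ^ (d * m) * ‖s‖ := by
        refine mul_le_mul_of_nonneg_right (pow_le_pow_of_le_one (norm_nonneg _) hvc1 ?_) hspos.le
        exact Nat.mul_le_mul_left _ (by omega)
    _ = (‖v - φ c‖ ^ d * ‖w‖) ^ m := by rw [← hwn, pow_mul, mul_pow]
    _ ≤ 1 := by
        refine pow_le_one₀ (by positivity) ?_
        calc ‖v - φ c‖ ^ d * ‖w‖ ≤ ‖w‖⁻¹ * ‖w‖ := by gcongr
          _ = 1 := inv_mul_cancel₀ hwpos.ne'

end main

end Pool.Agent.Y92.ZH
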