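import Pool.Agent.Y226.ZG.Glob3

/-!
# Elimination for pairs of algebraic functions on a curve
-/

set_option autoImplicit false
set_option linter.unusedSectionVars false

open UpperHalfPlane H294ZP Polynomial

namespace Pool.Agent.Y92.ZH

open Pool.Agent.Y226 Pool.Agent.Y226.ZG

/-! ### valuations -/

section val

variable {Ω Γ : Type*} [Field Ω] [LinearOrderedCommGroupWithZero Γ] (v : Valuation Ω Γ)

omit v in
theorem ml1 {a b : Γ} (ha : a ≤ 1) (hb : b < 1) : a * b < 1 :=
  calc a * b ≤ 1 * b := by gcongr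
    _ = b := one_mul b
    _ < 1 := hb

theorem vint {b : ℕ} {c : ℕ → Ω} {z : Ω} (hc : ∀ i < b, v (c i) ≤ 1) (hb : v (c b) = 1)
    (h : ∑ i ∈ Finset.range (b + 1), c i * z ^ i = 0) : v z ≤ 1 := by
  by_contra hcon
  push Not at hcon
  rw [Finset.sum_range_succ] at h
  have h1 : c b * z ^ b = -∑ i ∈ Finset.range b, c i * z ^ i := by linear_combination h
  have h2 : v (c b * z ^ b) = v z ^ b := by rw [map_mul, map_pow, hb, one_mul]
  have hz0 : v z ≠ 0 := fun h0 => by rw [h0] at hcon; exact absurd hcon (by simp)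
  have h3 : v (∑ i ∈ Finset.range b, c i * z ^ i) < v z ^ b := by
    refine v.map_sum_lt (pow_ne_zero _ hz0) fun i hi => ?_
    rw [map_mul, map_pow]
    calc v (c i) * v z ^ i ≤ 1 * v z ^ i := by
          gcongr
          exact hc i (Finset.mem_range.1 hi)
      _ = v z ^ i := one_mul _
      _ < v z ^ b := pow_lt_pow_right₀ hcon (Finset.mem_range.1 hi)
  rw [h1, Valuation.map_neg] at h2
  exact absurd h2 h3.ne

variable {K : Type*} [Field K] (ι : K →+* Ω) (hι : ∀ c, v (ι c) ≤ 1)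

include hι

theorem vι {c : K} (hc : c ≠ 0) : v (ι c) = 1 := by
  refine le_antisymm (hι c) ?_
  have h1 := hι c⁻¹
  rw [map_inv₀, map_inv₀] at h1
  have h2 : v (ι c) ≠ 0 := (Valuation.ne_zero_iff v).2 ((map_ne_zero ι).2 hc)
  exact (inv_le_one₀ (zero_lt_iff.2 h2)).1 h1

theorem veval {z : Ω} (hz : v z ≤ 1) (f : K[X]) : v (f.eval₂ ι z) ≤ 1 := by
  rw [eval₂_eq_sum_range]
  refine v.map_sum_le fun i _ => ?_
  rw [map_mul, map_pow]
  exact mul_le_one₀ (hι _) zero_le (pow_le_one₀ zero_le hz)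

theorem vsub {u : Ω} (hu : v u < 1) (f : K[X]) (r : K) :
    v (f.eval₂ ι (u + ι r) - ι (f.eval r)) < 1 := by
  have h1 : f.eval₂ ι (u + ι r) = (f.comp (X + C r)).eval₂ ι u := by
    rw [eval₂_comp, eval₂_add, eval₂_X, eval₂_C]
  have h2 : f.eval r = (f.comp (X + C r)).coeff 0 := by
    rw [coeff_zero_eq_eval_zero, eval_comp, eval_add, eval_X, eval_C, zero_add]
  rw [h1, h2]
  set g := f.comp (X + C r)
  have h3 : g.eval₂ ι u = g.divX.eval₂ ι u * u + ι (g.coeff 0) := by
    conv_lhs => rw [← divX_mul_X_add g]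
    rw [eval₂_add, eval₂_mul, eval₂_X, eval₂_C]
  rw [h3, add_sub_cancel_right, map_mul]
  exact ml1 (veval v ι hι hu.le _) hu

end val

theorem E2_swap {A B : Type*} [CommRing A] [CommRing B] (φ : A →+* B) (x y : B) (h : A[X][X]) :
    E2 φ x y h = E2 φ y x (Bivariate.swap h) := by
  have h1 : E2 φ x y = (E2 φ y x).comp (Bivariate.swap (R := A)).toRingEquiv.toRingHom := by
    apply Polynomial.ringHom_ext
    · intro f
      induction f using Polynomial.induction_on' with
      | add p q hp hq => rw [C_add, map_add, map_add, hp, hq]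
      | monomial n a =>
        have e1 : (C (monomial n a) : A[X][X]) = monomial 0 (monomial n a) := rfl
        show E2 φ x y (C (monomial n a)) = E2 φ y x (Bivariate.swap (C (monomial n a)))
        rw [e1, Bivariate.swap_monomial_monomial, ← e1, E2_C, ← C_mul_X_pow_eq_monomial,
          ← C_mul_X_pow_eq_monomial, map_mul, map_pow, E2_X, E2_C]
        have e2 : (monomial 0 a : A[X]) = C a := rfl
        rw [e2, eval₂_mul, eval₂_C, eval₂_pow, eval₂_X, eval₂_C]
    · have e1 : (X : A[X][X]) = monomial 1 (monomial 0 1) := rfl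
      show E2 φ x y X = E2 φ y x (Bivariate.swap X)
      rw [e1, Bivariate.swap_monomial_monomial, ← e1, E2_X]
      have e2 : (monomial 0 (monomial 1 (1 : A)) : A[X][X]) = C X := rfl
      rw [e2, E2_C, eval₂_X]
  rw [h1]
  rfl

/-- an element and its inverse are transcendental -/
theorem tr_inv {K Ω : Type*} [Field K] [Field Ω] (ι : K →+* Ω) {ξ : Ω}
    (hξ : ∀ f : K[X], f ≠ 0 → f.eval₂ ι ξ ≠ 0) {f : K[X]} (hf : f ≠ 0) : f.eval₂ ι ξ⁻¹ ≠ 0 := by
  have hξ0 : ξ ≠ 0 := fun h0 => hξ X X_ne_zero (by rw [eval₂_X, h0])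
  intro h0
  haveI : Invertible ξ⁻¹ := invertibleOfNonzero (inv_ne_zero hξ0)
  have h1 := (eval₂_reverse_eq_zero_iff ι ξ⁻¹ f).2 h0
  rw [invOf_eq_inv, inv_inv] at h1
  exact hξ _ (fun h => hf (by simpa using h)) h1

/-- a place where a transcendental element has a pole -/
theorem exists_val {K Ω : Type} [Field K] [Field Ω] (ι : K →+* Ω) {ξ : Ω}
    (hξ : ∀ f : K[X], f ≠ 0 → f.eval₂ ι ξ ≠ 0) :
    ∃ V : ValuationSubring Ω, (∀ c, V.valuation (ι c) ≤ 1) ∧ V.valuation ξ⁻¹ < 1 := by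
  have hξ0 : ξ ≠ 0 := fun h0 => hξ X X_ne_zero (by rw [eval₂_X, h0])
  let A : Subring Ω := (eval₂RingHom ι ξ⁻¹).range
  have hu : ξ⁻¹ ∈ A := ⟨X, by rw [coe_eval₂RingHom, eval₂_X]⟩
  let I : Ideal A := Ideal.span {⟨ξ⁻¹, hu⟩}
  have hI : I ≠ ⊤ := by
    intro htop
    have h1 : (1 : A) ∈ I := by rw [htop]; trivial
    obtain ⟨c, hc⟩ := Ideal.mem_span_singleton'.1 h1
    obtain ⟨q, hq⟩ := c.2
    have h2 : (c : Ω) * ξ⁻¹ = 1 := congrArg (Subtype.val) hc
    rw [← hq, coe_eval₂RingHom] at h2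
    refine tr_inv ι hξ (f := q * X - 1) ?_ ?_
    · intro h0
      have := congrArg (eval 0) h0
      simp at this
    · rw [eval₂_sub, eval₂_mul, eval₂_X, eval₂_one, h2, sub_self]
  obtain ⟨V, hV1, hV2⟩ := Ideal.image_subset_nonunits_valuationSubring I hI
  refine ⟨V, fun c => ?_, ?_⟩
  · rw [ValuationSubring.valuation_le_one_iff]
    exact hV1 ⟨C c, by rw [coe_eval₂RingHom, eval₂_C]⟩
  · exact hV2 ⟨⟨ξ⁻¹, hu⟩, Ideal.subset_span rfl, rfl⟩

/-- the residues of a function at the poles of another function -/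
noncomputable def resid {K : Type*} [Field K] (a : ℕ) (g : K[X][X]) : K[X] :=
  (rv a g).map (evalRingHom 0)

theorem resid_ne {K : Type*} [Field K] {a b : ℕ} {g : K[X][X]} (hg : Cor4 a b g) :
    (resid a g).eval 0 ≠ 0 := by
  have h1 := hg.rv.2.2.1
  unfold cf at h1
  rw [← coeff_zero_eq_eval_zero, resid, coeff_map, coe_evalRingHom, ← coeff_zero_eq_eval_zero]
  exact h1

/-- There is no solution of the modular equation in an extension of the function field. -/
theorem nosol {Ω : Type} [Field Ω] (ι : QA →+* Ω) {ξ η : Ω}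
    (hξ : ∀ f : QA[X], f ≠ 0 → f.eval₂ ι ξ ≠ 0) {a b : ℕ} {g : QA[X][X]} (hg : Cor4 a b g)
    (hrel : E2 ι ξ η g = 0) {lam mu lam' mu' : QA} (hlam' : lam' ≠ 0) {R R' : QA[X][X]}
    (hR' : R'.Monic)
    (hR : ∀ ρ, (resid a g).IsRoot ρ → (Bivariate.swap R).leadingCoeff.eval (lam * ρ + mu) ≠ 0)
    {N : ℕ} (hN : 0 < N) {α β : Ω} (h1 : E2 ι α (ι lam * η + ι mu) R = 0)
    (h2 : E2 ι β (ι lam' * ξ + ι mu') R' = 0)
    (h3 : PsiE (ι.comp iA) (mP N) (mD N) α β = 0) : False := by
  obtain ⟨-, -, -, -, -, -, -, -, hone, -, -⟩ := modular_spec N hN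
  have hξ0 : ξ ≠ 0 := fun h0 => hξ X X_ne_zero (by rw [eval₂_X, h0])
  obtain ⟨V, hι, hu⟩ := exists_val ι hξ
  set v := V.valuation with hv
  have hξv : 1 < v ξ := by
    rw [map_inv₀] at hu
    exact (inv_lt_one₀ (zero_lt_iff.2 ((Valuation.ne_zero_iff v).2 hξ0))).1 hu
  -- the other coordinate
  have hrv := E2_rv hg ι hξ0 hrel
  have hrvc := hg.rv
  have hco : ∀ i, v (((rv a g).coeff i).eval₂ ι ξ⁻¹ - ι (((rv a g).coeff i).eval 0)) < 1 := by
    intro i
    have := vsub v ι hι hu ((rv a g).coeff i) 0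
    rwa [map_zero, add_zero] at this
  have hcb : v (((rv a g).coeff b).eval₂ ι ξ⁻¹) = 1 := by
    have e1 : ((rv a g).coeff b).eval 0 ≠ 0 := by
      rw [← coeff_zero_eq_eval_zero]
      exact hrvc.2.2.2.2.1
    have e2 := vι v ι hι e1
    have e3 : ((rv a g).coeff b).eval₂ ι ξ⁻¹ =
        (((rv a g).coeff b).eval₂ ι ξ⁻¹ - ι (((rv a g).coeff b).eval 0)) +
          ι (((rv a g).coeff b).eval 0) := by ring
    rw [e3, Valuation.map_add_eq_of_lt_right v (by rw [e2]; exact hco b), e2]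
  have hηv : v η ≤ 1 := by
    refine vint v (b := b) (c := fun i => ((rv a g).coeff i).eval₂ ι ξ⁻¹) (z := η)
      (fun i _ => veval v ι hι hu.le _) hcb ?_
    rw [E2_apply, eval₂_eq_sum_range' _ (n := b + 1) (by rw [hrvc.2.1]; omega)] at hrv
    exact hrv
  have hres : v ((resid a g).eval₂ ι η) < 1 := by
    have e1 : (resid a g).eval₂ ι η = -∑ i ∈ Finset.range (b + 1),
        (((rv a g).coeff i).eval₂ ι ξ⁻¹ - ι (((rv a g).coeff i).eval 0)) * η ^ i := by
      rw [E2_apply, eval₂_eq_sum_range' _ (n := b + 1) (by rw [hrvc.2.1]; omega)] at hrv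
      simp only [coe_eval₂RingHom] at hrv
      simp only [sub_mul]
      rw [Finset.sum_sub_distrib, hrv, zero_sub, neg_neg, resid, eval₂_map,
        eval₂_eq_sum_range' _ (n := b + 1) (by rw [hrvc.2.1]; omega)]
      rfl
    rw [e1, Valuation.map_neg]
    refine v.map_sum_lt one_ne_zero fun i _ => ?_
    rw [map_mul, map_pow]
    rw [mul_comm]
    exact ml1 (pow_le_one₀ zero_le hηv) (hco i)
  have hres0 : resid a g ≠ 0 := by
    intro h0
    apply resid_ne hg
    rw [h0, eval_zero]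
  obtain ⟨ρ, hρ, hηρ⟩ : ∃ ρ, (resid a g).IsRoot ρ ∧ v (η - ι ρ) < 1 := by
    by_contra hcon
    push Not at hcon
    have e1 := (IsAlgClosed.splits (resid a g)).eq_prod_roots
    have e2 : (resid a g).eval₂ ι η = ι (resid a g).leadingCoeff *
        ((resid a g).roots.map fun ρ => η - ι ρ).prod := by
      conv_lhs => rw [e1]
      rw [eval₂_mul, eval₂_C, ← coe_eval₂RingHom, map_multiset_prod, Multiset.map_map]
      congr 2
      refine Multiset.map_congr rfl fun ρ _ => ?_
      simp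
    rw [e2, map_mul, vι v ι hι (leadingCoeff_ne_zero.2 hres0), one_mul] at hres
    refine absurd hres (not_lt.2 ?_)
    have e3 : ∀ s : Multiset QA, (∀ ρ ∈ s, 1 ≤ v (η - ι ρ)) →
        1 ≤ v (s.map fun ρ => η - ι ρ).prod := by
      intro s
      induction s using Multiset.induction_on with
      | empty => intro _; simp
      | cons c s ih =>
        intro hs
        rw [Multiset.map_cons, Multiset.prod_cons, map_mul]
        exact one_le_mul_of_one_le_of_one_le (hs c (Multiset.mem_cons_self c s))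
          (ih fun ρ hρ => hs ρ (Multiset.mem_cons_of_mem hρ))
    exact e3 _ fun ρ hρ => hcon ρ (isRoot_of_mem_roots hρ)
  -- the first function
  have hsr : v ((ι lam * η + ι mu) - ι (lam * ρ + mu)) < 1 := by
    have e1 : (ι lam * η + ι mu) - ι (lam * ρ + mu) = ι lam * (η - ι ρ) := by
      rw [map_add, map_mul]
      ring
    rw [e1, map_mul]
    exact ml1 (hι _) hηρ
  have hsv : v (ι lam * η + ι mu) ≤ 1 := by
    refine v.map_add_le ?_ (hι _)
    rw [map_mul]
    exact mul_le_one₀ (hι _) zero_le hηv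
  have hlead : v ((Bivariate.swap R).leadingCoeff.eval₂ ι (ι lam * η + ι mu)) = 1 := by
    have e1 := vι v ι hι (hR ρ hρ)
    have e2 := vsub v ι hι hsr (Bivariate.swap R).leadingCoeff (lam * ρ + mu)
    rw [sub_add_cancel] at e2
    have e3 : (Bivariate.swap R).leadingCoeff.eval₂ ι (ι lam * η + ι mu) =
        ((Bivariate.swap R).leadingCoeff.eval₂ ι (ι lam * η + ι mu) -
          ι ((Bivariate.swap R).leadingCoeff.eval (lam * ρ + mu))) +
          ι ((Bivariate.swap R).leadingCoeff.eval (lam * ρ + mu)) := by ring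
    rw [e3, Valuation.map_add_eq_of_lt_right v (by rw [e1]; exact e2), e1]
  have hα : v α ≤ 1 := by
    rw [E2_swap, E2_apply, eval₂_eq_sum_range] at h1
    exact vint v (b := (Bivariate.swap R).natDegree)
      (c := fun i => ((Bivariate.swap R).coeff i).eval₂ ι (ι lam * η + ι mu))
      (fun i _ => veval v ι hι hsv _) hlead h1
  have hβ : v β ≤ 1 := by
    unfold PsiE at h3
    refine vint v (b := mD N) (c := fun i => (mP N i).eval₂ (ι.comp iA) α) (fun i _ => ?_) ?_ h3
    · rw [eval₂_eq_sum_range]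
      refine v.map_sum_le fun i _ => ?_
      rw [map_mul, map_pow]
      exact mul_le_one₀ (hι _) zero_le (pow_le_one₀ zero_le hα)
    · simp only [hone, eval₂_one, map_one]
  have hs' : v (ι lam' * ξ + ι mu') ≤ 1 := by
    rw [E2_apply, eval₂_eq_sum_range] at h2
    refine vint v (b := R'.natDegree) (c := fun i => (R'.coeff i).eval₂ ι β)
      (fun i _ => veval v ι hι hβ _) ?_ h2
    simp only [hR'.coeff_natDegree, eval₂_one, map_one]
  have hξ1 : v ξ ≤ 1 := by
    have e1 : ι lam' * ξ = (ι lam' * ξ + ι mu') + -ι mu' := by ring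
    have e2 : v (ι lam' * ξ) ≤ 1 := by
      rw [e1]
      refine v.map_add_le hs' ?_
      rw [Valuation.map_neg]
      exact hι _
    rwa [map_mul, vι v ι hι hlam', one_mul] at e2
  exact absurd hξ1 (not_le.2 hξv)

end Pool.Agent.Y92.ZH
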