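import Pool.Agent.Y92.ZH.Elim

/-!
# Elimination for pairs of algebraic functions on a curve: the polynomial
-/

set_option autoImplicit false
set_option linter.unusedSectionVars false

open UpperHalfPlane H294ZP Polynomial

namespace Pool.Agent.Y92.ZH

open Pool.Agent.Y226 Pool.Agent.Y226.ZG

/-- the constants in two more variables -/
noncomputable def cc (A : Type) [CommRing A] : A →+* A[X][X] :=
  (C : A[X] →+* A[X][X]).comp (C : A →+* A[X])

theorem elim_alt {A B : Type} [CommRing A] [CommRing B] (c : A →+* B) (I : Ideal A) [I.IsPrime]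
    (S : Set B) : (∃ f, f ∉ I ∧ c f ∈ I.map c ⊔ Ideal.span S) ∨
    ∃ (Ω : Type) (_ : Field Ω) (π : B →+* Ω), (∀ f, π (c f) = 0 ↔ f ∈ I) ∧
      ∀ z ∈ S, π z = 0 := by
  classical
  by_cases hcase : ∃ f, f ∉ I ∧ c f ∈ I.map c ⊔ Ideal.span S
  · exact Or.inl hcase
  · right
    push Not at hcase
    have hdisj : Disjoint ((I.map c ⊔ Ideal.span S : Ideal B) : Set B)
        (I.primeCompl.map c : Submonoid B) := by
      rw [Set.disjoint_left]
      rintro z hz ⟨f, hf, rfl⟩
      exact hcase f hf hz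
    obtain ⟨𝔓, h𝔓, hle, hd⟩ := Ideal.exists_le_prime_disjoint _ _ hdisj
    haveI := h𝔓
    let Ω := FractionRing (B ⧸ 𝔓)
    let π : B →+* Ω := (algebraMap (B ⧸ 𝔓) Ω).comp (Ideal.Quotient.mk 𝔓)
    have hπ : ∀ z, π z = 0 ↔ z ∈ 𝔓 := by
      intro z
      show algebraMap (B ⧸ 𝔓) Ω (Ideal.Quotient.mk 𝔓 z) = 0 ↔ _
      rw [map_eq_zero_iff _ (IsFractionRing.injective (B ⧸ 𝔓) Ω),
        Ideal.Quotient.eq_zero_iff_mem]
    refine ⟨Ω, inferInstance, π, fun f => ⟨fun hf => ?_, fun hf => ?_⟩, fun z hz => ?_⟩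
    · by_contra hcon
      exact Set.disjoint_left.1 hd ((hπ _).1 hf) ⟨f, hcon, rfl⟩
    · exact (hπ _).2 (hle (Ideal.mem_sup_left (Ideal.mem_map_of_mem c hf)))
    · exact (hπ _).2 (hle (Ideal.mem_sup_right (Ideal.subset_span hz)))

theorem elim_ev {A : Type} [CommRing A] {I : Ideal A} {S : Set A[X][X]} {f : A}
    (hf : cc A f ∈ I.map (cc A) ⊔ Ideal.span S) {L : Type} [Field L] (θ : A →+* L) (α β : L)
    (hθ : ∀ g ∈ I, θ g = 0) (hS : ∀ z ∈ S, E2 θ α β z = 0) : θ f = 0 := by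
  have hcc : ∀ f, E2 θ α β (cc A f) = θ f := by
    intro f
    show E2 θ α β (C (C f)) = _
    rw [E2_CC]
  have hle : I.map (cc A) ⊔ Ideal.span S ≤ RingHom.ker (E2 θ α β) := by
    refine sup_le ?_ ?_
    · rw [Ideal.map_le_iff_le_comap]
      intro g hg
      rw [Ideal.mem_comap, RingHom.mem_ker, hcc]
      exact hθ g hg
    · rw [Ideal.span_le]
      exact hS
  have h4 := hle hf
  rwa [RingHom.mem_ker, hcc] at h4

/-- the coordinates are transcendental -/
theorem coord_tr {n : ℕ} {I : Ideal (MvPolynomial (Fin n) QA)} (hIp : I.IsPrime)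
    (hconst : ∀ (i : Fin n) (c : QA), MvPolynomial.X i - MvPolynomial.C c ∉ I) (i : Fin n)
    {f : QA[X]} (hf : f ≠ 0) : f.eval₂ MvPolynomial.C (MvPolynomial.X i) ∉ I := by
  rw [(IsAlgClosed.splits f).eq_prod_roots, eval₂_mul, eval₂_C, ← coe_eval₂RingHom,
    map_multiset_prod, Multiset.map_map]
  intro h
  rcases hIp.mem_or_mem h with h1 | h1
  · refine hIp.ne_top ((Ideal.eq_top_iff_one I).2 ?_)
    have h2 := I.mul_mem_left (MvPolynomial.C (f.leadingCoeff)⁻¹) h1
    rwa [← map_mul, inv_mul_cancel₀ (leadingCoeff_ne_zero.2 hf), map_one] at h2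
  · obtain ⟨z, hz, hz'⟩ := (hIp.multiset_prod_mem_iff_exists_mem _).1 h1
    obtain ⟨c, -, rfl⟩ := Multiset.mem_map.1 hz
    apply hconst i c
    simpa using hz'

section gen

variable {K A : Type} [Field K] [CommRing A] (cK : K →+* A)

/-- the equation of an algebraic function of `s` -/
noncomputable def eqn (R : K[X][X]) (s : A) (z : A[X][X]) : A[X][X] :=
  E2 ((cc A).comp cK) z (cc A s) R

theorem map_eqn {L : Type} [CommRing L] (φ : A[X][X] →+* L) (R : K[X][X]) (s : A) (z : A[X][X]) :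
    φ (eqn cK R s z) = E2 ((φ.comp (cc A)).comp cK) (φ z) (φ (cc A s)) R := by
  unfold eqn
  rw [map_E2, RingHom.comp_assoc]

end gen

theorem elim_pair {n : ℕ} {I : Ideal (MvPolynomial (Fin n) QA)} (hIp : I.IsPrime)
    (hconst : ∀ (i : Fin n) (c : QA), MvPolynomial.X i - MvPolynomial.C c ∉ I) {j l : Fin n}
    {a b : ℕ} {g : QA[X][X]} (hg : Cor4 a b g)
    (hrel : E2 MvPolynomial.C (MvPolynomial.X l) (MvPolynomial.X j) g ∈ I)
    {lam mu : Fin n → ℚ} (hlam : lam l ≠ 0) {R : Fin n → QA[X][X]} (hR : (R l).Monic)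
    (hres : ∀ ρ, (resid a g).IsRoot ρ →
      (Bivariate.swap (R j)).leadingCoeff.eval ((lam j : QA) * ρ + (mu j : QA)) ≠ 0)
    {N : ℕ} (hN : 0 < N) : ∃ f, f ∉ I ∧ ∀ y ∈ VC I, ∀ α β : ℂ,
      E2 rA α (lam j * y j + mu j) (R j) = 0 → E2 rA β (lam l * y l + mu l) (R l) = 0 →
      PsiE ιZ (mP N) (mD N) α β = 0 → MvPolynomial.eval₂ rA y f = 0 := by
  classical
  haveI := hIp
  let cK : QA →+* MvPolynomial (Fin n) QA := MvPolynomial.C
  let sj : MvPolynomial (Fin n) QA :=
    MvPolynomial.C (lam j : QA) * MvPolynomial.X j + MvPolynomial.C (mu j : QA)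
  let sl : MvPolynomial (Fin n) QA :=
    MvPolynomial.C (lam l : QA) * MvPolynomial.X l + MvPolynomial.C (mu l : QA)
  rcases elim_alt (cc (MvPolynomial (Fin n) QA)) I {eqn cK (R j) sj (C X), eqn cK (R l) sl X,
      PsiE (((cc _).comp cK).comp iA) (mP N) (mD N) (C X) X} with
    ⟨f, hfI, hf⟩ | ⟨Ω, _, π, hπI, hπS⟩
  · refine ⟨f, hfI, fun y hy α β h1 h2 h3 => ?_⟩
    refine elim_ev hf (MvPolynomial.eval₂Hom rA y) α β hy ?_
    have e1 : (E2 (MvPolynomial.eval₂Hom rA y) α β).comp (cc _) = MvPolynomial.eval₂Hom rA y := by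
      refine RingHom.ext fun f => ?_
      show E2 _ α β (C (C f)) = _
      rw [E2_CC]
    have e2 : (MvPolynomial.eval₂Hom rA y).comp cK = rA := by
      refine RingHom.ext fun c => ?_
      show MvPolynomial.eval₂Hom rA y (MvPolynomial.C c) = _
      rw [MvPolynomial.eval₂Hom_C]
    have e3 : ∀ i, (E2 (MvPolynomial.eval₂Hom rA y) α β) (cc _
        (MvPolynomial.C (lam i : QA) * MvPolynomial.X i + MvPolynomial.C (mu i : QA))) =
        lam i * y i + mu i := by
      intro i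
      have := congrArg (fun φ : MvPolynomial (Fin n) QA →+* ℂ => φ
        (MvPolynomial.C (lam i : QA) * MvPolynomial.X i + MvPolynomial.C (mu i : QA))) e1
      refine this.trans ?_
      simp
    rintro z (rfl | rfl | rfl)
    · rw [map_eqn, e1, e2, E2_CX, e3]
      exact h1
    · rw [map_eqn, e1, e2, E2_X, e3]
      exact h2
    · rw [map_PsiE, ← RingHom.comp_assoc, ← RingHom.comp_assoc, e1, e2, E2_CX, E2_X, rA_comp]
      exact h3
  · exfalso
    let ι : QA →+* Ω := (π.comp (cc _)).comp cK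
    have hι : ∀ f : QA[X], f ≠ 0 → ∀ i : Fin n,
        f.eval₂ ι (π (cc _ (MvPolynomial.X i))) ≠ 0 := by
      intro f hf i h0
      apply coord_tr hIp hconst i hf
      rw [← hπI]
      have : (π.comp (cc _)) (f.eval₂ MvPolynomial.C (MvPolynomial.X i)) = 0 := by
        rw [hom_eval₂]
        exact h0
      exact this
    have hs : ∀ i, π (cc _
        (MvPolynomial.C (lam i : QA) * MvPolynomial.X i + MvPolynomial.C (mu i : QA))) =
        ι (lam i : QA) * π (cc _ (MvPolynomial.X i)) + ι (mu i : QA) := by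
      intro i
      rw [map_add, map_mul, map_add, map_mul]
      rfl
    refine nosol ι (ξ := π (cc _ (MvPolynomial.X l))) (η := π (cc _ (MvPolynomial.X j)))
      (fun f hf => hι f hf l) hg ?_ (lam := (lam j : QA)) (mu := (mu j : QA))
      (lam' := (lam l : QA)) (mu' := (mu l : QA)) (by exact_mod_cast hlam) hR hres hN
      (α := π (C X)) (β := π X) ?_ ?_ ?_
    · have h1 : (π.comp (cc _)) (E2 MvPolynomial.C (MvPolynomial.X l) (MvPolynomial.X j) g) = 0 :=
        (hπI _).2 hrel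
      rw [map_E2] at h1
      exact h1
    · have h1 := hπS (eqn cK (R j) sj (C X)) (by simp)
      rw [map_eqn] at h1
      rw [← hs j]
      exact h1
    · have h1 := hπS (eqn cK (R l) sl X) (by simp)
      rw [map_eqn] at h1
      rw [← hs l]
      exact h1
    · have h1 := hπS (PsiE (((cc _).comp cK).comp iA) (mP N) (mD N) (C X) X) (by simp)
      rw [map_PsiE, ← RingHom.comp_assoc, ← RingHom.comp_assoc] at h1
      exact h1

end Pool.Agent.Y92.ZH
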