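import Pool.Agent.Y92.ZH.Br
import Pool.Agent.Y226.ZP.Modular

/-!
# The expansion of a root of a power of the Tate parameter
-/

set_option autoImplicit false
set_option linter.unusedSectionVars false

open UpperHalfPlane H294ZP Polynomial

namespace Pool.Agent.Y92.ZH

open Pool.Agent.Y226 Pool.Agent.Y226.ZG Pool.Agent.Y92.ZF

variable {C : Type} [NormedField C] [IsUltrametricDist C]

theorem n1mul {x y : C} {θ : ℝ} (hθ : θ < 1) (hx : ‖x - 1‖ ≤ θ) (hy : ‖y - 1‖ ≤ θ) :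
    ‖x * y - 1‖ ≤ θ := by
  have e : x * y - 1 = (x - 1) * y + (y - 1) := by ring
  rw [e]
  exact nadd_le (nmul_le' hx (neq_one (hy.trans_lt hθ) norm_one).le) hy

theorem n1inv {x : C} {θ : ℝ} (hθ : θ < 1) (hx : ‖x - 1‖ ≤ θ) : ‖x⁻¹ - 1‖ ≤ θ := by
  have hn := neq_one (hx.trans_lt hθ) norm_one
  have h0 : x ≠ 0 := norm_pos_iff.1 (by rw [hn]; exact one_pos)
  have e : x⁻¹ - 1 = -((x - 1) * x⁻¹) := by field_simp; ring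
  rw [e, norm_neg, norm_mul, norm_inv, hn, inv_one, mul_one]
  exact hx

theorem n1pow {x : C} {θ : ℝ} (hθ : θ < 1) (hx : ‖x - 1‖ ≤ θ) (m : ℕ) : ‖x ^ m - 1‖ ≤ θ := by
  have hn := neq_one (hx.trans_lt hθ) norm_one
  have := npow_sub_pow (x := x) (y := 1) (δ := θ) hn.le norm_one.le hx m
  rwa [one_pow] at this

variable [CompleteSpace C] [CharZero C] [IsAlgClosed C]

theorem exp_pt {ψ : ZZ →+* C} (hψ : ∀ z, ‖ψ z‖ ≤ 1) {k m D : ℕ} (hk : 0 < k)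
    (hkn : ‖(k : C)‖ = 1) (hmD : m ≤ D) (hD : 0 < D) {s J γ c : C} (hγ : γ ^ k = c ^ m) (hγ0 : γ ≠ 0)
    (hs : 1 < ‖s‖) (hJ : 1 < ‖J‖) (hJs : ‖J‖ ^ m = ‖s‖ ^ k)
    (hb : ‖J ^ m * (c ^ m * s ^ k)⁻¹ - 1‖ ^ D * ‖s‖ ≤ 1) {θ : ℝ} (hθ0 : 0 < θ) (hθ1 : θ < 1)
    (hθ : ‖s‖⁻¹ ≤ θ ^ D) :
    ∃ t : C, t ≠ 0 ∧ t ^ k = qT ψ J ^ m ∧ ‖t * (γ * s) - 1‖ ≤ θ := by
  have hspos : 0 < ‖s‖ := one_pos.trans hs
  have hs0 : s ≠ 0 := norm_pos_iff.1 hspos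
  have hJpos : 0 < ‖J‖ := one_pos.trans hJ
  have hJ0 : J ≠ 0 := norm_pos_iff.1 hJpos
  set a : C := J ^ m * (c ^ m * s ^ k)⁻¹ with ha
  have ha1 : ‖a - 1‖ ≤ θ := by
    refine (pow_le_pow_iff_left₀ (norm_nonneg _) hθ0.le hD.ne').1 ?_
    have h1 : ‖a - 1‖ ^ D ≤ ‖s‖⁻¹ := by
      rw [← div_eq_mul_inv] at ha
      rw [inv_eq_one_div, le_div_iff₀ hspos]
      exact hb
    exact h1.trans hθ
  have hJi : ‖J‖⁻¹ ≤ θ := by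
    refine (pow_le_pow_iff_left₀ (inv_nonneg.2 (norm_nonneg _)) hθ0.le hD.ne').1 ?_
    have hJi1 : ‖J‖⁻¹ ≤ 1 := (inv_lt_one_of_one_lt₀ hJ).le
    calc ‖J‖⁻¹ ^ D ≤ ‖J‖⁻¹ ^ m := pow_le_pow_of_le_one (inv_nonneg.2 (norm_nonneg _)) hJi1 hmD
      _ = (‖s‖ ^ k)⁻¹ := by rw [inv_pow, hJs]
      _ ≤ ‖s‖⁻¹ := by
          refine inv_anti₀ hspos ?_
          exact le_self_pow₀ hs.le hk.ne'
      _ ≤ θ ^ D := hθ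
  have hb1 : ‖qT ψ J * J - 1‖ ≤ θ := (qT_expand' hψ hJ).trans hJi
  set u : C := (qT ψ J * J) ^ m * a⁻¹ with hu
  have hu1 : ‖u - 1‖ ≤ θ := n1mul hθ1 (n1pow hθ1 hb1 m) (n1inv hθ1 ha1)
  obtain ⟨r, hr, hr'⟩ := root_near (C := C) hk hkn (hu1.trans_lt hθ1)
  have hr1 : ‖r - 1‖ ≤ θ := by
    have e : r - 1 = (r - (1 + (u - 1) * (k : C)⁻¹)) + (u - 1) * (k : C)⁻¹ := by ring
    rw [e]
    refine nadd_le (hr'.trans ?_) (nmul_le' hu1 (by rw [norm_inv, hkn, inv_one]))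
    have h1 := norm_nonneg (u - 1)
    nlinarith
  have hrn := neq_one (hr1.trans_lt hθ1) norm_one
  have hr0 : r ≠ 0 := norm_pos_iff.1 (by rw [hrn]; exact one_pos)
  have hγs : γ * s ≠ 0 := mul_ne_zero hγ0 hs0
  refine ⟨r * (γ * s)⁻¹, mul_ne_zero hr0 (inv_ne_zero hγs), ?_, ?_⟩
  · have hJm : J ^ m ≠ 0 := pow_ne_zero _ hJ0
    rw [mul_pow, hr, hu, ha, mul_pow, inv_pow, mul_pow, hγ]
    have h1 : c ^ m ≠ 0 := by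
      rw [← hγ]
      exact pow_ne_zero _ hγ0
    have h2 : s ^ k ≠ 0 := pow_ne_zero _ hs0
    field_simp
  · rw [mul_assoc, inv_mul_cancel₀ hγs, mul_one]
    exact hr1

/-- expansion in terms of `x` -/
theorem exp_x {p : ℕ} [hpf : Fact p.Prime] (hp0 : 0 < ‖(p : C)‖) (hp1 : ‖(p : C)‖ < 1)
    {ψ : ZZ →+* C} (hψ : ∀ z, ‖ψ z‖ ≤ 1) {k m D : ℕ} (hk : 0 < k)
    (hkn : ‖(k : C)‖ = 1) (hmD : m ≤ D) (hD : 0 < D) {J γ c : C} (hγ : γ ^ k = c ^ m) (hγ0 : γ ≠ 0)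
    (Λ : Cˣ) {μ x : C} (hΛ : ‖(Λ : C)‖⁻¹ ≤ ‖(p : C)‖ ^ (2 * D)) (hμ : ‖μ‖ ≤ ‖(p : C)‖ * ‖(Λ : C)‖)
    (hx : ‖(p : C)‖ < ‖x‖) (hJ : 1 < ‖J‖) (hJs : ‖J‖ ^ m = ‖Λ * x + μ‖ ^ k)
    (hb : ‖J ^ m * (c ^ m * (Λ * x + μ) ^ k)⁻¹ - 1‖ ^ D * ‖Λ * x + μ‖ ≤ 1) :
    ∃ t : C, t ≠ 0 ∧ t ^ k = qT ψ J ^ m ∧
      (‖x‖ < ‖(p : C)‖⁻¹ → ‖t * (γ * Λ * x) - 1‖ ≤ ‖(p : C)‖ * ‖x‖⁻¹) ∧
      (‖x‖ = 1 → ‖t * (γ * Λ * x) - (1 + -μ * (Λ * x)⁻¹)‖ ≤ ‖(p : C)‖ ^ 2) := by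
  have hΛ0 : (Λ : C) ≠ 0 := Λ.ne_zero
  have hΛpos : 0 < ‖(Λ : C)‖ := norm_pos_iff.2 hΛ0
  have hxpos : 0 < ‖x‖ := hp0.trans hx
  have hx0 : x ≠ 0 := norm_pos_iff.1 hxpos
  set s : C := Λ * x + μ with hs
  have hsn : ‖s‖ = ‖(Λ : C)‖ * ‖x‖ := by
    rw [hs, neq_of_add_lt, norm_mul]
    rw [norm_mul, mul_comm]
    exact hμ.trans_lt (mul_lt_mul_of_pos_right hx hΛpos)
  have hspos : 0 < ‖s‖ := by rw [hsn]; positivity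
  have hs0 : s ≠ 0 := norm_pos_iff.1 hspos
  have hp2 : ‖(p : C)‖ ^ 2 < ‖(p : C)‖ := by nlinarith
  have hsi : ‖s‖⁻¹ ≤ (‖(p : C)‖ ^ 2) ^ D * ‖x‖⁻¹ := by
    rw [hsn, mul_inv, ← pow_mul]
    exact mul_le_mul_of_nonneg_right hΛ (inv_nonneg.2 hxpos.le)
  -- the choice of `θ`
  obtain ⟨θ, hθ0, hθ1, hθs, hθx, hθx'⟩ : ∃ θ : ℝ, 0 < θ ∧ θ < 1 ∧ ‖s‖⁻¹ ≤ θ ^ D ∧
      (‖x‖ < ‖(p : C)‖⁻¹ → θ ≤ ‖(p : C)‖ * ‖x‖⁻¹) ∧ (‖x‖ = 1 → θ ≤ ‖(p : C)‖ ^ 2) := by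
    rcases le_total ‖x‖ 1 with h | h
    · refine ⟨‖(p : C)‖ ^ 2 * ‖x‖⁻¹, by positivity, ?_, ?_, fun _ => ?_, fun h' => ?_⟩
      · rw [← div_eq_mul_inv, div_lt_one hxpos]
        exact hp2.trans hx
      · refine hsi.trans ?_
        rw [mul_pow]
        refine mul_le_mul_of_nonneg_left ?_ (by positivity)
        exact le_self_pow₀ ((one_le_inv₀ hxpos).2 h) hD.ne'
      · exact mul_le_mul_of_nonneg_right hp2.le (inv_nonneg.2 hxpos.le)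
      · rw [h', inv_one, mul_one]
    · refine ⟨‖(p : C)‖ ^ 2, by positivity, hp2.trans hp1, ?_, fun h' => ?_, fun _ => le_rfl⟩
      · refine hsi.trans ?_
        calc (‖(p : C)‖ ^ 2) ^ D * ‖x‖⁻¹ ≤ (‖(p : C)‖ ^ 2) ^ D * 1 := by
              gcongr
              exact inv_le_one_of_one_le₀ h
          _ = (‖(p : C)‖ ^ 2) ^ D := mul_one _
      · rw [sq]
        refine mul_le_mul_of_nonneg_left ?_ hp0.le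
        exact (le_inv_comm₀ hp0 hxpos).2 h'.le
  have hs1 : 1 < ‖s‖ := by
    have h1 : ‖s‖⁻¹ < 1 := hθs.trans_lt (pow_lt_one₀ hθ0.le hθ1 hD.ne')
    by_contra hcon
    push Not at hcon
    have := (one_le_inv₀ hspos).2 hcon
    linarith
  obtain ⟨t, ht0, htk, ht1⟩ := exp_pt hψ hk hkn hmD hD hγ hγ0 hs1 hJ hJs hb hθ0 hθ1 hθs
  have hμs : ‖μ * s⁻¹‖ ≤ ‖(p : C)‖ * ‖x‖⁻¹ := by
    rw [norm_mul, norm_inv, hsn, mul_inv]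
    calc ‖μ‖ * (‖(Λ : C)‖⁻¹ * ‖x‖⁻¹) ≤ (‖(p : C)‖ * ‖(Λ : C)‖) * (‖(Λ : C)‖⁻¹ * ‖x‖⁻¹) := by
          gcongr
      _ = ‖(p : C)‖ * ‖x‖⁻¹ := by field_simp
  have e1 : (Λ : C) * x * s⁻¹ - 1 = -(μ * s⁻¹) := by
    have : (Λ : C) * x = s - μ := by rw [hs]; ring
    rw [this, sub_mul, mul_inv_cancel₀ hs0]
    ring
  have e2 : t * (γ * Λ * x) = (t * (γ * s)) * ((Λ : C) * x * s⁻¹) := by
    field_simp
  have hpx1 : ‖(p : C)‖ * ‖x‖⁻¹ < 1 := by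
    rw [← div_eq_mul_inv, div_lt_one hxpos]
    exact hx
  have h3 : ‖(Λ : C) * x * s⁻¹ - 1‖ ≤ ‖(p : C)‖ * ‖x‖⁻¹ := by
    rw [e1, norm_neg]
    exact hμs
  refine ⟨t, ht0, htk, fun h => ?_, fun h => ?_⟩
  · rw [e2]
    exact n1mul hpx1 (ht1.trans (hθx h)) h3
  · have ht2 := ht1.trans (hθx' h)
    rw [h, inv_one, mul_one] at h3 hμs hpx1
    have e4 : t * (γ * Λ * x) - (1 + -μ * ((Λ : C) * x)⁻¹) =
        (t * (γ * s) - 1) * ((Λ : C) * x * s⁻¹) + μ * s⁻¹ * (μ * ((Λ : C) * x)⁻¹) := by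
      have h5 : ((Λ : C) * x * s⁻¹ - 1) - -μ * ((Λ : C) * x)⁻¹ =
          μ * s⁻¹ * (μ * ((Λ : C) * x)⁻¹) := by
        rw [e1]
        have h6 : μ = s - (Λ : C) * x := by rw [hs]; ring
        have h7 : (Λ : C) * x ≠ 0 := mul_ne_zero hΛ0 hx0
        have h8 : μ * s⁻¹ * (μ * ((Λ : C) * x)⁻¹) =
            (s - (Λ : C) * x) * s⁻¹ * (μ * ((Λ : C) * x)⁻¹) := by rw [← h6]
        rw [h8, sub_mul, mul_inv_cancel₀ hs0]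
        field_simp
        ring
      rw [e2, ← h5]
      ring
    rw [e4]
    have h9 : ‖(Λ : C) * x * s⁻¹‖ = 1 := neq_one (h3.trans_lt hpx1) norm_one
    refine nadd_le (nmul_le' ht2 h9.le) ?_
    rw [norm_mul, sq]
    refine mul_le_mul hμs ?_ (norm_nonneg _) hp0.le
    rw [norm_mul, norm_inv, norm_mul, h, mul_one]
    calc ‖μ‖ * ‖(Λ : C)‖⁻¹ ≤ (‖(p : C)‖ * ‖(Λ : C)‖) * ‖(Λ : C)‖⁻¹ := by gcongr
      _ = ‖(p : C)‖ := by field_simp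

end Pool.Agent.Y92.ZH
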