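import Pool.Agent.Y92.ZH.Pkg2

/-!
# The main theorem for algebraic functions, over the algebraic numbers
-/

set_option autoImplicit false
set_option linter.unusedSectionVars false

open UpperHalfPlane H294ZP Polynomial

namespace Pool.Agent.Y92.ZH

open Pool.Agent.Y226 Pool.Agent.Y226.ZG Pool.Agent.Y92.ZF

theorem eval_C_eval (R : QA[X][X]) (c t : QA) :
    (R.eval (C c)).eval t = E2 (RingHom.id QA) t c R := by
  have h := hom_eval₂ R (RingHom.id QA[X]) (evalRingHom t) (C c)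
  rw [eval₂_id, coe_evalRingHom, eval_C, RingHom.comp_id] at h
  exact h

/-- the fibres of an algebraic function are finite -/
theorem fib_fin {R : QA[X][X]} (hfib : ∀ c, R.eval (C c) ≠ 0) (s : ℂ) :
    {x : ℂ | E2 rA x s R = 0}.Finite := by
  have hQ : (Bivariate.swap R).map (eval₂RingHom rA s) ≠ 0 := by
    intro h0
    have h1 : ∀ b, ((Bivariate.swap R).coeff b).eval₂ rA s = 0 := by
      intro b
      have := congrArg (fun P : ℂ[X] => P.coeff b) h0
      simpa using this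
    have hR0 : R ≠ 0 := by
      rintro rfl
      exact hfib 0 (by simp)
    have h2 := swap_ne hR0
    have h3 := h1 (Bivariate.swap R).natDegree
    obtain ⟨c, rfl⟩ := root_algebraic h2 (t := s) (by
      unfold Pool.Agent.Y226.ev
      rw [eval_map]
      exact h3)
    apply hfib c
    apply Polynomial.funext
    intro t
    rw [eval_C_eval, E2_swap, E2_apply, eval₂_eq_sum_range, eval_zero]
    refine Finset.sum_eq_zero fun b _ => ?_
    have h4 := h1 b
    rw [eval₂_at_apply] at h4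
    have h5 := (map_eq_zero rA).1 h4
    rw [coe_eval₂RingHom, eval₂_id, h5, zero_mul]
  refine (((Bivariate.swap R).map (eval₂RingHom rA s)).rootSet_finite ℂ).subset fun x hx => ?_
  rw [mem_rootSet]
  refine ⟨hQ, ?_⟩
  rw [coe_aeval_eq_eval, eval_map, ← E2_apply, ← E2_swap]
  exact hx

theorem E2_const (R : QA[X][X]) (c : QA) (s : ℂ) :
    E2 rA (rA c) s R = (R.map (evalRingHom c)).eval₂ rA s := by
  rw [E2_apply, eval₂_map]
  congr 1
  apply Polynomial.ringHom_ext
  · intro a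
    simp
  · simp

/-- the points of the curve in the product -/
def CP {n : ℕ} (I : Ideal (MvPolynomial (Fin n) QA)) (R : Fin n → QA[X][X]) (lam mu : Fin n → ℚ) :
    Set ((Fin n → ℂ) × (Fin n → ℂ)) :=
  {q | q.1 ∈ VC I ∧ ∀ i, E2 rA (q.2 i) (lam i * q.1 i + mu i) (R i) = 0}

/-- the main theorem over the algebraic numbers -/
theorem main_ZH {n : ℕ} (I : Ideal (MvPolynomial (Fin n) QA)) (hIp : I.IsPrime)
    (hconst : ∀ (i : Fin n) (c : QA), MvPolynomial.X i - MvPolynomial.C c ∉ I)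
    (hgen : ∀ i j, i ≠ j → ∃ (a b : ℕ) (g : QA[X][X]), Cor4 a b g ∧
      E2 MvPolynomial.C (MvPolynomial.X i) (MvPolynomial.X j) g ∈ I)
    {T : ℕ} (hT0 : 0 < T) (R : Fin n → QA[X][X]) (hBD : ∀ i, BD T (R i))
    (hmon : ∀ i, (R i).Monic) (hpos : ∀ i, 0 < (R i).natDegree)
    (hfib : ∀ i (c : QA), (R i).eval (C c) ≠ 0) (W : ℕ) :
    ∃ D : ℕ, ∀ lam mu : Fin n → ℚ, (∃ (p e : ℕ) (w : Fin n → ℕ), p.Prime ∧ D < p ∧ 0 < e ∧
      ∀ i, 0 < w i ∧ w i ≤ W ∧ 2 * (T * T) ≤ w i * e ∧ padicValRat p (lam i) = -((w i : ℤ) * e) ∧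
        padicValRat p (lam i) < padicValRat p (mu i)) →
      {q | q ∈ CP I R lam mu ∧ ∃ (r : ℕ) (Z : SpecialDatum n r), r + 2 ≤ n ∧
        q.2 ∈ Z.locus}.Finite ∧
      ∀ (r : ℕ) (Z : SpecialDatum n r), r < n →
        {q | q ∈ CP I R lam mu ∧ q.2 ∈ Z.locus}.Finite ∧
        ∃ q ∈ CP I R lam mu, q.2 ∉ Z.locus := by
  classical
  haveI := hIp
  obtain ⟨𝔽, _, _, x, hx1, hx2⟩ := ff_of_prime I
  obtain ⟨𝒞, h𝒞⟩ := exists_GP x hx1 (fun i => by
      intro halg
      obtain ⟨r, hr, hr0⟩ := halg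
      obtain ⟨c, hc⟩ := root_const (algebraMap QA 𝔽) hr hr0
      apply hconst i c
      rw [← hx2, map_sub, MvPolynomial.aeval_X, MvPolynomial.aeval_C, hc, sub_self])
    (fun i j hij => by
      obtain ⟨a, b, g, hg, hgI⟩ := hgen i j hij
      refine ⟨a, b, g, hg, ?_⟩
      rw [← hx2, aeval_E2, MvPolynomial.aeval_X, MvPolynomial.aeval_X] at hgI
      exact hgI)
  subst h𝒞
  have hgen' : ∀ l j : Fin n, ∃ (a b : ℕ) (g : QA[X][X]), l ≠ j → Cor4 a b g ∧
      E2 MvPolynomial.C (MvPolynomial.X l) (MvPolynomial.X j) g ∈ I := by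
    intro l j
    by_cases h : l = j
    · exact ⟨0, 0, 0, fun h' => absurd h h'⟩
    · obtain ⟨a, b, g, hg⟩ := hgen l j h
      exact ⟨a, b, g, fun _ => hg⟩
  choose a b g hg using hgen'
  obtain ⟨D₀, hD₀⟩ := exists_pkg2 𝒞 hx2 hT0 R hBD hmon a b g (fun l j h => (hg l j h).1) W
  -- zeros of functions
  have hcoord : ∀ f, f ∉ I → ∀ i, ∃ q : QA[X], q ≠ 0 ∧ ∀ y ∈ VC I,
      MvPolynomial.eval₂ rA y f = 0 → Pool.Agent.Y226.ev q (y i) = 0 := by
    intro f hf i
    obtain ⟨q, hq, hq'⟩ := coord_poly 𝒞 (fun h => hf ((hx2 f).1 h)) i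
    refine ⟨q, hq, fun y hy hfy => ?_⟩
    have := hq' ℂ rA y (fun g hg => hy g ((hx2 g).1 hg)) hfy
    unfold Pool.Agent.Y226.ev
    rwa [eval_map]
  have hzfin : ∀ f, f ∉ I → {y | y ∈ VC I ∧ MvPolynomial.eval₂ rA y f = 0}.Finite := by
    intro f hf
    choose q hq hq' using hcoord f hf
    refine Set.Finite.subset (Set.Finite.pi' fun i => ((q i).map rA).rootSet_finite ℂ) ?_
    rintro y ⟨hy, hfy⟩ i
    rw [mem_rootSet]
    refine ⟨(Polynomial.map_ne_zero_iff rA.injective).2 (hq i), ?_⟩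
    rw [coe_aeval_eq_eval]
    exact hq' i y hy hfy
  have hzalg : ∀ f, f ∉ I → ∀ y ∈ VC I, MvPolynomial.eval₂ rA y f = 0 →
      ∃ s : Fin n → QA, (fun i => rA (s i)) = y ∧ ∀ g ∈ I, MvPolynomial.eval s g = 0 := by
    intro f hf y hy hfy
    have h1 : ∀ i, ∃ s : QA, rA s = y i := by
      intro i
      obtain ⟨q, hq, hq'⟩ := hcoord f hf i
      exact root_algebraic hq (hq' y hy hfy)
    choose s hs using h1
    have hsy : (fun i => rA (s i)) = y := funext hs
    refine ⟨s, hsy, fun g hg => ?_⟩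
    have h2 := hy g hg
    rw [← hsy, eval₂_rA] at h2
    exact (map_eq_zero rA).1 h2
  refine ⟨D₀, ?_⟩
  rintro lam mu ⟨p, e, w, hp, hDp, he, hw⟩
  haveI hpf : Fact p.Prime := ⟨hp⟩
  obtain ⟨hlam0, hres, G, hG⟩ := hD₀ p hDp lam mu w e he
    (fun i => ⟨(hw i).1, (hw i).2.1⟩) (fun i => (hw i).2.2.1) (fun i => (hw i).2.2.2.1)
    (fun i => (hw i).2.2.2.2)
  -- the polynomials of the pairs
  have hΨ : ∀ q : Fin n × Fin n × ℕ, ∃ f, f ∉ I ∧ (q.1 ≠ q.2.1 → 0 < q.2.2 → ∀ y ∈ VC I,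
      ∀ α β : ℂ, E2 rA α (lam q.1 * y q.1 + mu q.1) (R q.1) = 0 →
      E2 rA β (lam q.2.1 * y q.2.1 + mu q.2.1) (R q.2.1) = 0 →
      PsiE ιZ (mP q.2.2) (mD q.2.2) α β = 0 → MvPolynomial.eval₂ rA y f = 0) := by
    rintro ⟨j, l, N⟩
    by_cases h : j ≠ l ∧ 0 < N
    · obtain ⟨f, hf, hf'⟩ := elim_pair hIp hconst (hg l j h.1.symm).1 (hg l j h.1.symm).2
        (lam := lam) (mu := mu) (hlam0 l) (R := R) (hmon l) (hres l j h.1.symm) h.2
      exact ⟨f, hf, fun _ _ => hf'⟩
    · exact ⟨1, fun h1 => hIp.ne_top ((Ideal.eq_top_iff_one I).2 h1),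
        fun h1 h2 => absurd ⟨h1, h2⟩ h⟩
  choose F hF0 hF1 using hΨ
  -- the polynomial of a special subvariety
  have hspec : ∀ (r : ℕ) (Z : SpecialDatum n r), r < n → ∃ f, f ∉ I ∧ ∀ q ∈ CP I R lam mu,
      q.2 ∈ Z.locus → MvPolynomial.eval₂ rA q.1 f = 0 := by
    intro r Z hr
    by_cases hall : ∃ i, Z.cls i = none
    · obtain ⟨i, hi⟩ := hall
      have hint : IsIntegral ℤ (jj (Z.cm i)) := singular_modulus_integral (Z.cm i) (Z.isCM i)
      set c : QA := iA ⟨jj (Z.cm i), hint⟩ with hcdef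
      have hcx : rA c = jj (Z.cm i) := rfl
      refine ⟨mc lam mu i ((R i).map (evalRingHom c)),
        fib_notMem 𝒞 hx2 hlam0 ((hmon i).map (evalRingHom c)).ne_zero i, fun q hq hqZ => ?_⟩
      obtain ⟨z, hz⟩ := hqZ
      have h1 := (hz i).1 hi
      rw [mc_eval₂, ← E2_const, hcx, ← h1]
      exact hq.2 i
    · push Not at hall
      obtain ⟨j, -, l, -, hjl, c, hcj, hcl⟩ := coll Z.cls Finset.univ (by simpa using hr)
        (fun x _ => hall x)
      obtain ⟨a', b', c', d', hdet, hrel⟩ := class_rel_unif Z hcj hcl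
      obtain ⟨N, hN⟩ : ∃ N : ℕ, (N : ℤ) = a' * d' - b' * c' :=
        ⟨(a' * d' - b' * c').toNat, by omega⟩
      have hN0 : 0 < N := by
        have : (0 : ℤ) < N := by rw [hN]; exact hdet
        exact_mod_cast this
      refine ⟨_, hF0 (j, l, N), fun q hq hqZ => ?_⟩
      obtain ⟨w, w', hww, hw, hw'⟩ := hrel _ hqZ
      obtain ⟨-, -, -, -, -, -, -, -, -, -, h5⟩ := modular_spec N hN0
      have hΨ := h5 w w' a' b' c' d' hN.symm hww
      rw [← hw, ← hw'] at hΨ
      exact hF1 (j, l, N) hjl hN0 q.1 hq.1 (q.2 j) (q.2 l) (hq.2 j) (hq.2 l) hΨ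
  -- finite sets of points
  have hpairs : ∀ Y : Set (Fin n → ℂ), Y.Finite →
      {q | q ∈ CP I R lam mu ∧ q.1 ∈ Y}.Finite := by
    intro Y hY
    refine (Set.Finite.biUnion hY (t := fun y => ({y} : Set (Fin n → ℂ)) ×ˢ
      {x : Fin n → ℂ | ∀ i, x i ∈ {z : ℂ | E2 rA z (lam i * y i + mu i) (R i) = 0}})
      fun y _ => (Set.finite_singleton y).prod
        (Set.Finite.pi' fun i => fib_fin (hfib i) _)).subset ?_
    rintro q ⟨hq, hqY⟩
    rw [Set.mem_iUnion₂]
    exact ⟨q.1, hqY, rfl, fun i => hq.2 i⟩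
  refine ⟨?_, fun r Z hr => ⟨?_, ?_⟩⟩
  · -- finiteness
    have hfin : (⋃ q ∈ (Finset.univ ×ˢ Finset.univ ×ˢ Finset.range (G + 1) :
        Finset (Fin n × Fin n × ℕ)), {y | y ∈ VC I ∧ MvPolynomial.eval₂ rA y (F q) = 0}).Finite :=
      Set.Finite.biUnion (Finset.finite_toSet _) fun q _ => hzfin _ (hF0 q)
    refine (hpairs _ hfin).subset ?_
    rintro q ⟨hq, r, Z, hr, hZ⟩
    refine ⟨hq, ?_⟩
    -- the point is algebraic
    obtain ⟨f, hf, hf'⟩ := hspec r Z (by omega)
    obtain ⟨s, hsy, hsI⟩ := hzalg f hf q.1 hq.1 (hf' q hq hZ)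
    have hsy' : ∀ i, rA (s i) = q.1 i := fun i => congrFun hsy i
    have halg : ∀ i, ∃ X : QA, rA X = q.2 i := by
      intro i
      have h1 := hq.2 i
      have h2 : (lam i : ℂ) * q.1 i + mu i = rA ((lam i : QA) * s i + (mu i : QA)) := by
        rw [map_add, map_mul, map_ratCast, map_ratCast, hsy']
      refine root_algebraic (hfib i ((lam i : QA) * s i + (mu i : QA))) ?_
      unfold Pool.Agent.Y226.ev
      rw [eval_map]
      have h3 := hom_eval₂ (R i) (RingHom.id QA[X]) (eval₂RingHom rA (q.2 i))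
        (C ((lam i : QA) * s i + (mu i : QA)))
      rw [coe_eval₂RingHom, eval₂_C, ← h2, RingHom.comp_id] at h3
      rw [← eval₂_id, h3]
      exact h1
    choose X₀ hX₀ using halg
    have hX₀' : (fun i => rA (X₀ i)) = q.2 := funext hX₀
    obtain ⟨j, l, hjl, N, hN0, hN, hΨ⟩ := hG s hsI X₀ (fun i => by
      have h1 := hq.2 i
      have h2 : (lam i : ℂ) * q.1 i + mu i = rA ((lam i : QA) * s i + (mu i : QA)) := by
        rw [map_add, map_mul, map_ratCast, map_ratCast, hsy']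
      rw [h2, ← hX₀ i] at h1
      have h3 := map_E2 rA (RingHom.id QA) (X₀ i) ((lam i : QA) * s i + (mu i : QA)) (R i)
      rw [RingHom.comp_id, h1] at h3
      exact (map_eq_zero rA).1 h3) r Z hr (by rw [hX₀']; exact hZ)
    rw [Set.mem_iUnion₂]
    refine ⟨(j, l, N), ?_, hq.1, ?_⟩
    · simp only [Finset.mem_product, Finset.mem_univ, Finset.mem_range, true_and]
      omega
    · rw [hX₀, hX₀] at hΨ
      exact hF1 (j, l, N) hjl hN0 q.1 hq.1 (q.2 j) (q.2 l) (hq.2 j) (hq.2 l) hΨ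
  · obtain ⟨f, hf, hf'⟩ := hspec r Z hr
    refine (hpairs _ (hzfin f hf)).subset ?_
    rintro q ⟨hq, hZ⟩
    exact ⟨hq, hq.1, hf' q hq hZ⟩
  · -- the curve is not contained in a proper special subvariety
    obtain ⟨f, hf, hf'⟩ := hspec r Z hr
    have hvan : ∀ f, (∀ y ∈ VC I, MvPolynomial.eval₂ rA y f = 0) → f ∈ I := by
      intro f hf
      have h1 : f ∈ MvPolynomial.vanishingIdeal QA (MvPolynomial.zeroLocus ℂ I) := fun y hy =>
        hf y hy
      rwa [MvPolynomial.IsPrime.vanishingIdeal_zeroLocus] at h1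
    set L : Fin n → QA[X] := fun i => (Bivariate.swap (R i)).leadingCoeff with hL
    have hL0 : ∀ i, L i ≠ 0 := fun i => swap_ne (hmon i).ne_zero
    have hprod : f * ∏ i, mc lam mu i (L i) ∉ I := by
      intro hmem
      rcases hIp.mem_or_mem hmem with h1 | h1
      · exact hf h1
      · obtain ⟨i, -, hi⟩ := (hIp.prod_mem_iff).1 h1
        exact fib_notMem 𝒞 hx2 hlam0 (hL0 i) i hi
    have hex : ∃ y ∈ VC I, MvPolynomial.eval₂ rA y (f * ∏ i, mc lam mu i (L i)) ≠ 0 := by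
      by_contra hcon
      push Not at hcon
      exact hprod (hvan _ hcon)
    obtain ⟨y, hy, hne⟩ := hex
    rw [MvPolynomial.eval₂_mul] at hne
    have h1 : MvPolynomial.eval₂ rA y (∏ i, mc lam mu i (L i)) ≠ 0 := right_ne_zero_of_mul hne
    have h2 : MvPolynomial.eval₂ rA y (∏ i, mc lam mu i (L i)) =
        ∏ i, MvPolynomial.eval₂ rA y (mc lam mu i (L i)) :=
      map_prod (MvPolynomial.eval₂Hom rA y) _ _
    rw [h2] at h1
    -- roots
    have hroot : ∀ i, ∃ z : ℂ, E2 rA z (lam i * y i + mu i) (R i) = 0 := by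
      intro i
      have h3 := Finset.prod_ne_zero_iff.1 h1 i (Finset.mem_univ i)
      rw [mc_eval₂] at h3
      set Q : ℂ[X] := (Bivariate.swap (R i)).map (eval₂RingHom rA (lam i * y i + mu i)) with hQ
      have hQd : Q.natDegree = (Bivariate.swap (R i)).natDegree := by
        rw [hQ]
        exact natDegree_map_of_leadingCoeff_ne_zero _ h3
      have hdpos : 0 < (Bivariate.swap (R i)).natDegree := by
        by_contra hcon
        have hd0 : (Bivariate.swap (R i)).natDegree = 0 := by omega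
        -- the polynomial does not depend on the inner variable
        have h4 : ∀ v, ((R i).coeff v).natDegree = 0 := by
          intro v
          have := natDegree_coeff_le_swap (R i) v
          omega
        set P : QA[X] := (R i).map (evalRingHom 0) with hP
        have hPd : P.natDegree = (R i).natDegree := (hmon i).natDegree_map _
        have hPm : P.Monic := (hmon i).map _
        obtain ⟨c, hc⟩ := IsAlgClosed.exists_root P (by
          rw [degree_eq_natDegree hPm.ne_zero, hPd]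
          exact_mod_cast (hpos i).ne')
        apply hfib i c
        apply Polynomial.funext
        intro t
        rw [eval_C_eval, eval_zero]
        have h5 : E2 (RingHom.id QA) t c (R i) = E2 (RingHom.id QA) 0 c (R i) := by
          rw [E2_apply, E2_apply, eval₂_eq_sum_range, eval₂_eq_sum_range]
          refine Finset.sum_congr rfl fun v _ => ?_
          rw [eq_C_of_natDegree_eq_zero (h4 v), coe_eval₂RingHom, coe_eval₂RingHom, eval₂_C, eval₂_C]
        rw [h5, ← eval_C_eval]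
        have h6 : (P.eval c : QA) = 0 := hc
        have h7 := hom_eval₂ (R i) (RingHom.id QA[X]) (evalRingHom (0 : QA)) (C c)
        rw [coe_evalRingHom, eval_C, RingHom.comp_id, eval₂_id] at h7
        rw [hP, eval_map] at h6
        rw [h7, h6]
      obtain ⟨z, hz⟩ := IsAlgClosed.exists_root Q (by
        have hQ0 : Q ≠ 0 := by
          intro h
          rw [h, natDegree_zero] at hQd
          omega
        rw [degree_eq_natDegree hQ0, hQd]
        exact_mod_cast hdpos.ne')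
      refine ⟨z, ?_⟩
      rw [E2_swap, E2_apply, ← eval_map]
      exact hz
    choose z hz using hroot
    have hmem : (y, z) ∈ CP I R lam mu := ⟨hy, hz⟩
    exact ⟨(y, z), hmem, fun hZ => left_ne_zero_of_mul hne (hf' (y, z) hmem hZ)⟩

end Pool.Agent.Y92.ZH
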