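import Pool.Agent.Y226.ZP.Modular

/-!
# The relation between numbers with powers in common with the Tate parameters
-/

set_option autoImplicit false
set_option linter.unusedSectionVars false

open UpperHalfPlane H294ZP Polynomial

namespace Pool.Agent.Y92.ZH

open Pool.Agent.Y226

theorem rel2 {C : Type} [NormedField C] [IsUltrametricDist C] [CompleteSpace C] [CharZero C]
    [IsAlgClosed C] {ψ : ZZ →+* C} (hψ : ∀ z, ‖ψ z‖ ≤ 1) {K₀ : Type} [Field K₀] {i₀ : ZZ →+* K₀}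
    {ρ : K₀ →+* ℂ} {φ : K₀ →+* C} (hρ : ρ.comp i₀ = ιZ) (hφ : φ.comp i₀ = ψ) {τ w : ℍ}
    {a b c d : ℤ} (hdet : 0 < a * d - b * c) (hw : (w : ℂ) * (c * τ + d) = a * τ + b) {X Y : K₀}
    (hX : ρ X = jj τ) (hY : ρ Y = jj w) (hXn : 1 < ‖φ X‖) {k l m m' : ℕ} (hk : 0 < k) (hl : 0 < l)
    (hm : 0 < m) (hm' : 0 < m') {s t : C} (hs : s ^ k = qT ψ (φ X) ^ m)
    (ht : t ^ l = qT ψ (φ Y) ^ m') :
    ∃ (A B g : ℕ) (ζ : C), 0 < A ∧ 0 < B ∧ A.Coprime B ∧ 0 < g ∧ IsPrimitiveRoot ζ g ∧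
      t ^ B = ζ * s ^ A ∧
      ∃ N : ℕ, 0 < N ∧ N ≤ (k * m' * (l * m)) ^ 2 * (m * m') ^ 2 * (A * B) * g ^ 2 ∧
        PsiE ιZ (mP N) (mD N) (jj τ) (jj w) = 0 := by
  obtain ⟨A, B, g, ζ, hA, hB, hAB, hg, hζ, hq, hYn, hΨ⟩ :=
    tate_rel hψ hρ hφ hdet hw hX hY hXn
  have hqX := qT_ne hψ hXn
  have hqY := qT_ne hψ hYn
  have hs0 : s ≠ 0 := by
    rintro rfl
    rw [zero_pow hk.ne'] at hs
    exact pow_ne_zero _ hqX hs.symm
  have ht0 : t ≠ 0 := by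
    rintro rfl
    rw [zero_pow hl.ne'] at ht
    exact pow_ne_zero _ hqY ht.symm
  have hkm : 0 < k * m' := Nat.mul_pos hk hm'
  have hlm : 0 < l * m := Nat.mul_pos hl hm
  set G := Nat.gcd (k * m' * A) (l * m * B) with hG
  have hG0 : 0 < G := Nat.gcd_pos_of_pos_left _ (Nat.mul_pos hkm hA)
  obtain ⟨A', hA'⟩ : G ∣ k * m' * A := Nat.gcd_dvd_left _ _
  obtain ⟨B', hB'⟩ : G ∣ l * m * B := Nat.gcd_dvd_right _ _
  have hA'0 : 0 < A' := Nat.pos_of_ne_zero (by rintro rfl; have := Nat.mul_pos hkm hA; omega)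
  have hB'0 : 0 < B' := Nat.pos_of_ne_zero (by rintro rfl; have := Nat.mul_pos hlm hB; omega)
  have hcop : A'.Coprime B' := by
    have h1 : G * Nat.gcd A' B' = G * 1 := by
      rw [← Nat.gcd_mul_left, ← hA', ← hB', mul_one]
    exact Nat.eq_of_mul_eq_mul_left hG0 h1
  have hGkl : G ≤ k * m' * (l * m) := by
    have h1 : G ∣ (k * m' * (l * m)) * A :=
      (Nat.gcd_dvd_left (k * m' * A) (l * m * B)).trans ⟨l * m, by ring⟩
    have h2 : G ∣ (k * m' * (l * m)) * B :=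
      (Nat.gcd_dvd_right (k * m' * A) (l * m * B)).trans ⟨k * m', by ring⟩
    have h3 := Nat.dvd_gcd h1 h2
    rw [Nat.gcd_mul_left, hAB, mul_one] at h3
    exact Nat.le_of_dvd (Nat.mul_pos hkm hlm) h3
  set z := t ^ B' * (s ^ A')⁻¹ with hz
  have hsA : s ^ A' ≠ 0 := pow_ne_zero _ hs0
  have hzG : z ^ G = ζ ^ (m * m') := by
    rw [hz, mul_pow, inv_pow, ← pow_mul, ← pow_mul, mul_comm B' G, mul_comm A' G, ← hB', ← hA']
    have e1 : t ^ (l * m * B) = (qT ψ (φ Y) ^ B) ^ (m * m') := by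
      calc t ^ (l * m * B) = (t ^ l) ^ (m * B) := by rw [← pow_mul]; congr 1; ring
        _ = (qT ψ (φ Y) ^ B) ^ (m * m') := by
            rw [ht, ← pow_mul, ← pow_mul]; congr 1; ring
    have e2 : s ^ (k * m' * A) = (qT ψ (φ X) ^ A) ^ (m * m') := by
      calc s ^ (k * m' * A) = (s ^ k) ^ (m' * A) := by rw [← pow_mul]; congr 1; ring
        _ = (qT ψ (φ X) ^ A) ^ (m * m') := by
            rw [hs, ← pow_mul, ← pow_mul]; congr 1; ring
    rw [e1, e2, hq, mul_pow, mul_assoc,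
      mul_inv_cancel₀ (pow_ne_zero _ (pow_ne_zero _ hqX)), mul_one]
  have hz1 : z ^ (G * g) = 1 := by
    rw [pow_mul, hzG, ← pow_mul, mul_comm, pow_mul, hζ.pow_eq_one, one_pow]
  have hord : 0 < orderOf z := orderOf_pos_iff.2 (isOfFinOrder_iff_pow_eq_one.2
    ⟨G * g, Nat.mul_pos hG0 hg, hz1⟩)
  refine ⟨A', B', orderOf z, z, hA'0, hB'0, hcop, hord, IsPrimitiveRoot.orderOf z, ?_,
    A * B * g ^ 2, ?_, ?_, hΨ⟩
  · rw [hz, mul_assoc, inv_mul_cancel₀ hsA, mul_one]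
  · positivity
  · have h1 : g ≤ m * m' * orderOf z := by
      refine Nat.le_of_dvd (by positivity) (hζ.dvd_of_pow_eq_one _ ?_)
      rw [pow_mul, ← hzG, ← pow_mul, mul_comm G, pow_mul, pow_orderOf_eq_one, one_pow]
    have h2 : A ≤ k * m' * (l * m) * A' := by
      calc A ≤ k * m' * A := Nat.le_mul_of_pos_left _ hkm
        _ = G * A' := hA'
        _ ≤ k * m' * (l * m) * A' := Nat.mul_le_mul_right _ hGkl
    have h3 : B ≤ k * m' * (l * m) * B' := by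
      calc B ≤ l * m * B := Nat.le_mul_of_pos_left _ hlm
        _ = G * B' := hB'
        _ ≤ k * m' * (l * m) * B' := Nat.mul_le_mul_right _ hGkl
    calc A * B * g ^ 2 ≤ (k * m' * (l * m) * A') * (k * m' * (l * m) * B') *
          (m * m' * orderOf z) ^ 2 := by gcongr
      _ = (k * m' * (l * m)) ^ 2 * (m * m') ^ 2 * (A' * B') * (orderOf z) ^ 2 := by ring

end Pool.Agent.Y92.ZH
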