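import Pool.Agent.Y92.ZH.Exp2
import Pool.Agent.Y92.ZH.Rel2
import Pool.Agent.Y92.ZH.Elim2
import Pool.Agent.Y92.ZF.Pkg

/-!
# The local package at a large prime for algebraic functions
-/

set_option autoImplicit false
set_option linter.unusedSectionVars false

open UpperHalfPlane H294ZP Polynomial

namespace Pool.Agent.Y92.ZH

open Pool.Agent.Y226 Pool.Agent.Y226.ZG Pool.Agent.Y92.ZF

/-- the constants of an algebraic function -/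
theorem exists_consts (T : ℕ) (R : QA[X][X]) : ∃ U Γ : Finset QA, 1 ∈ Γ ∧ 0 ∉ Γ ∧
    (∀ q ∈ box T, cf R q ∈ U) ∧
    (∀ k m M₀, k ≤ T → m ≤ T → M₀ ≤ 2 * T * T → edge R T k m M₀ ≠ 0 → ∀ c,
      (edge R T k m M₀).IsRoot c → c ∈ U) ∧
    ∀ k m M₀, 0 < k → k ≤ T → m ≤ T → M₀ ≤ 2 * T * T → edge R T k m M₀ ≠ 0 → ∀ c,
      c ≠ 0 → (edge R T k m M₀).IsRoot c → ∃ γ ∈ Γ, γ ^ k = c ^ m := by
  classical
  have hg : ∀ (k m : ℕ) (c : QA), ∃ γ : QA, 0 < k → γ ^ k = c ^ m := by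
    intro k m c
    by_cases hk : 0 < k
    · obtain ⟨γ, hγ⟩ := IsAlgClosed.exists_pow_nat_eq (c ^ m) hk
      exact ⟨γ, fun _ => hγ⟩
    · exact ⟨0, fun h => absurd h hk⟩
  choose gam hgam using hg
  let Q : Finset (ℕ × ℕ × ℕ) := Finset.range (T + 1) ×ˢ Finset.range (T + 1) ×ˢ
    Finset.range (2 * T * T + 1)
  have hQ : ∀ {k m M₀ : ℕ}, k ≤ T → m ≤ T → M₀ ≤ 2 * T * T → (k, m, M₀) ∈ Q := by
    intro k m M₀ h1 h2 h3
    simp only [Q, Finset.mem_product, Finset.mem_range]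
    omega
  refine ⟨(box T).image (cf R) ∪ Q.biUnion (fun q => (edge R T q.1 q.2.1 q.2.2).roots.toFinset),
    insert 1 ((Q.biUnion (fun q => (edge R T q.1 q.2.1 q.2.2).roots.toFinset.image
      (gam q.1 q.2.1))).filter (fun γ => γ ≠ 0)), Finset.mem_insert_self _ _, ?_, ?_, ?_, ?_⟩
  · intro h
    rw [Finset.mem_insert, Finset.mem_filter] at h
    rcases h with h | h
    · exact zero_ne_one h
    · exact h.2 rfl
  · intro q hq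
    exact Finset.mem_union_left _ (Finset.mem_image_of_mem _ hq)
  · intro k m M₀ hk hm hM h0 c hc
    refine Finset.mem_union_right _ (Finset.mem_biUnion.2 ⟨(k, m, M₀), hQ hk hm hM, ?_⟩)
    rw [Multiset.mem_toFinset]
    exact (mem_roots h0).2 hc
  · intro k m M₀ hk0 hk hm hM h0 c hc0 hc
    refine ⟨gam k m c, Finset.mem_insert_of_mem (Finset.mem_filter.2 ⟨Finset.mem_biUnion.2
      ⟨(k, m, M₀), hQ hk hm hM, Finset.mem_image_of_mem _ ?_⟩, ?_⟩), hgam k m c hk0⟩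
    · rw [Multiset.mem_toFinset]
      exact (mem_roots h0).2 hc
    · intro h
      have h1 := hgam k m c hk0
      rw [h, zero_pow hk0.ne'] at h1
      exact pow_ne_zero _ hc0 h1.symm

theorem swap_ne {R : QA[X][X]} (h : R ≠ 0) : (Bivariate.swap R).leadingCoeff ≠ 0 := by
  rw [leadingCoeff_ne_zero]
  intro h0
  apply h
  exact (map_eq_zero_iff _ (Bivariate.swap (R := QA)).injective).1 h0

theorem eval_large {C : Type} [NormedField C] [IsUltrametricDist C] {P : C[X]}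
    (hP : ∀ i, ‖P.coeff i‖ ≤ 1) (hl : ‖P.leadingCoeff‖ = 1) {s : C} (hs : 1 < ‖s‖) :
    P.eval s ≠ 0 := by
  obtain ⟨ν, -, h⟩ := poly_exp hP hl
  have h1 := (h s ‖s‖⁻¹ hs le_rfl).2.norm (inv_lt_one_of_one_lt₀ hs)
  intro h0
  rw [h0, zero_mul, norm_zero] at h1
  exact zero_ne_one h1

theorem exists_pkg2 {𝔽 : Type} [Field 𝔽] [Algebra QA 𝔽] {n : ℕ} (𝒞 : GP QA 𝔽 n)
    {I : Ideal (MvPolynomial (Fin n) QA)}
    (hI : ∀ f : MvPolynomial (Fin n) QA, MvPolynomial.aeval 𝒞.x f = 0 ↔ f ∈ I)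
    {T : ℕ} (hT0 : 0 < T) (R : Fin n → QA[X][X]) (hBD : ∀ i, BD T (R i))
    (hmon : ∀ i, (R i).Monic) (a b : Fin n → Fin n → ℕ) (g : Fin n → Fin n → QA[X][X])
    (hg : ∀ l j, l ≠ j → Cor4 (a l j) (b l j) (g l j)) (W : ℕ) :
    ∃ D₀ : ℕ, ∀ (p : ℕ) [Fact p.Prime], D₀ < p → ∀ (lam mu : Fin n → ℚ) (w : Fin n → ℕ) (e : ℕ),
      0 < e → (∀ i, 0 < w i ∧ w i ≤ W) → (∀ i, 2 * (T * T) ≤ w i * e) →
      (∀ i, padicValRat p (lam i) = -((w i : ℤ) * e)) →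
      (∀ i, padicValRat p (lam i) < padicValRat p (mu i)) →
      (∀ i, lam i ≠ 0) ∧
      (∀ l j, l ≠ j → ∀ ρ, (resid (a l j) (g l j)).IsRoot ρ →
        (Bivariate.swap (R j)).leadingCoeff.eval ((lam j : QA) * ρ + (mu j : QA)) ≠ 0) ∧
      ∃ G : ℕ, ∀ s : Fin n → QA, (∀ f ∈ I, MvPolynomial.eval s f = 0) → ∀ X₀ : Fin n → QA,
        (∀ i, E2 (RingHom.id QA) (X₀ i) (lam i * s i + mu i) (R i) = 0) →
        ∀ (r : ℕ) (Z : SpecialDatum n r), r + 2 ≤ n → (fun i => rA (X₀ i)) ∈ Z.locus →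
        ∃ j l : Fin n, j ≠ l ∧ ∃ N' : ℕ, 0 < N' ∧ N' ≤ G ∧
          PsiE ιZ (mP N') (mD N') (rA (X₀ j)) (rA (X₀ l)) = 0 := by
  classical
  obtain ⟨D₁, hD₁⟩ := exists_loc 𝒞 hI W
  choose U Γ hΓ1 hΓ0 hUcf hUrt hΓγ using fun i => exists_consts T (R i)
  obtain ⟨D₂, hD₂⟩ := unit_large_set (Finset.univ.biUnion U ∪ Finset.univ.biUnion Γ ∪
    Finset.univ.image (fun i => (Bivariate.swap (R i)).leadingCoeff.leadingCoeff) ∪
    Finset.univ.biUnion (fun q : Fin n × Fin n => (resid (a q.1 q.2) (g q.1 q.2)).roots.toFinset))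
  choose D₃ hD₃ using nr_large_poly
  refine ⟨D₁ + D₂ + ∑ i, D₃ (Bivariate.swap (R i)).leadingCoeff + T, ?_⟩
  intro p hpf hp lam mu w e he hw hwe hval hmu
  obtain ⟨C, _, _, _, _, _, φ, hpn⟩ := exists_padic p
  have hpR : (1 : ℝ) < p := by exact_mod_cast hpf.out.one_lt
  have hp0 : 0 < ‖(p : C)‖ := by rw [hpn]; exact inv_pos.2 (by linarith)
  have hp1 : ‖(p : C)‖ < 1 := by rw [hpn]; exact inv_lt_one_of_one_lt₀ hpR
  have hpC : (p : C) ≠ 0 := norm_pos_iff.1 hp0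
  obtain ⟨k, _, _, _, red, hker⟩ := exists_residue2 (C := C) (p := p) hp1
  obtain ⟨M, d, D, 𝓛, hφ, hΛ, htm, hPt, hunit⟩ := hD₁ p (by omega) C φ hp0 hp1 k red hker lam mu w
    e he hw hval hmu
  have hlam0 : ∀ i, lam i ≠ 0 := by
    intro i h0
    have h1 : (𝓛.Λ i : C) = 0 := by
      rw [hΛ, h0, Rat.cast_zero]
    exact (𝓛.Λ i).ne_zero h1
  have hUU : ∀ α : QA, α ∈ Finset.univ.biUnion U ∪ Finset.univ.biUnion Γ ∪
      Finset.univ.image (fun i => (Bivariate.swap (R i)).leadingCoeff.leadingCoeff) ∪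
      Finset.univ.biUnion (fun q : Fin n × Fin n =>
        (resid (a q.1 q.2) (g q.1 q.2)).roots.toFinset) → α ≠ 0 →
      φ α ∈ Nr C p ∧ ‖φ α‖ = 1 := hD₂ p (by omega) C φ hp1
  have hUi : ∀ i, ∀ α ∈ U i, α ≠ 0 → ‖φ α‖ = 1 := fun i α hα h0 => (hUU α (by
    simp only [Finset.mem_union, Finset.mem_biUnion, Finset.mem_univ, true_and]
    exact Or.inl (Or.inl (Or.inl ⟨i, hα⟩))) h0).2
  have hΓi : ∀ i, ∀ α ∈ Γ i, φ α ∈ Nr C p ∧ ‖φ α‖ = 1 := fun i α hα => hUU α (by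
    simp only [Finset.mem_union, Finset.mem_biUnion, Finset.mem_univ, true_and]
    exact Or.inl (Or.inl (Or.inr ⟨i, hα⟩))) (fun h => hΓ0 i (h ▸ hα))
  have hUl : ∀ i, ‖φ (Bivariate.swap (R i)).leadingCoeff.leadingCoeff‖ = 1 := fun i => (hUU _ (by
    simp only [Finset.mem_union, Finset.mem_image, Finset.mem_univ, true_and]
    exact Or.inl (Or.inr ⟨i, rfl⟩)) (leadingCoeff_ne_zero.2 (swap_ne (hmon i).ne_zero))).2
  have hUr : ∀ l j, l ≠ j → ∀ ρ, (resid (a l j) (g l j)).IsRoot ρ → ‖φ ρ‖ = 1 := by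
    intro l j hlj ρ hρ
    have h0 := resid_ne (hg l j hlj)
    refine (hUU ρ ?_ ?_).2
    · rw [Finset.mem_union]
      right
      rw [Finset.mem_biUnion]
      refine ⟨(l, j), Finset.mem_univ _, ?_⟩
      rw [Multiset.mem_toFinset]
      refine (mem_roots ?_).2 hρ
      intro h
      apply h0
      rw [h, eval_zero]
    · rintro rfl
      exact h0 hρ
  have hle : ∀ (f : Fin n → ℕ) (i : Fin n), f i ≤ ∑ i, f i := fun f i =>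
    Finset.single_le_sum (f := f) (fun _ _ => Nat.zero_le _) (Finset.mem_univ i)
  have hPc : ∀ i j, ‖((Bivariate.swap (R i)).leadingCoeff.map φ).coeff j‖ ≤ 1 := by
    intro i j
    have h1 := hle (fun i => D₃ (Bivariate.swap (R i)).leadingCoeff) i
    have h2 := hD₃ (Bivariate.swap (R i)).leadingCoeff p (by omega) C φ hp1
    rw [mem_PS] at h2
    exact Nr_le (h2 j)
  have hkn : ∀ m : ℕ, 0 < m → m ≤ T → ‖(m : C)‖ = 1 := fun m hm hmT =>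
    nat_unit hp1 hm (by omega)
  -- size of `Λ`
  have hΛn' : ∀ i, ‖((𝓛.Λ i : Cˣ) : C)‖⁻¹ = ‖(p : C)‖ ^ (w i * e) := by
    intro i
    rw [hΛ, rat_norm hp0 hp1 (hlam0 i), hval i, ← zpow_neg, neg_neg, ← Nat.cast_mul, zpow_natCast]
  have hΛn : ∀ i, ‖((𝓛.Λ i : Cˣ) : C)‖⁻¹ ≤ ‖(p : C)‖ ^ (2 * (T * T)) := by
    intro i
    rw [hΛn']
    exact pow_le_pow_of_le_one hp0.le hp1.le (hwe i)
  have hTT : 0 < T * T := Nat.mul_pos hT0 hT0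
  have hΛp : ∀ i, ‖((𝓛.Λ i : Cˣ) : C)‖⁻¹ ≤ ‖(p : C)‖ := by
    intro i
    refine (hΛn i).trans ?_
    exact pow_le_of_le_one hp0.le hp1.le (by omega)
  have hΛpos : ∀ i, 0 < ‖((𝓛.Λ i : Cˣ) : C)‖ := fun i => norm_pos_iff.2 (𝓛.Λ i).ne_zero
  have hmn : ∀ i, ‖(mu i : C)‖ ≤ ‖(p : C)‖ * ‖((𝓛.Λ i : Cˣ) : C)‖ := by
    intro i
    rw [hΛ]
    exact mu_norm hp0 hp1 (hlam0 i) (hmu i)
  have hsn : ∀ i (x : C), ‖(p : C)‖ < ‖x‖ →
      ‖(𝓛.Λ i : C) * x + mu i‖ = ‖((𝓛.Λ i : Cˣ) : C)‖ * ‖x‖ := by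
    intro i x hx
    rw [neq_of_add_lt, norm_mul]
    rw [norm_mul, mul_comm]
    exact (hmn i).trans_lt (mul_lt_mul_of_pos_right hx (hΛpos i))
  have hs1 : ∀ i (x : C), ‖(p : C)‖ < ‖x‖ → 1 < ‖(𝓛.Λ i : C) * x + mu i‖ := by
    intro i x hx
    rw [hsn i x hx]
    have h1 : ‖(p : C)‖⁻¹ ≤ ‖((𝓛.Λ i : Cˣ) : C)‖ := by
      have := hΛp i
      exact (inv_le_comm₀ hp0 (hΛpos i)).2 this
    calc (1 : ℝ) = ‖(p : C)‖⁻¹ * ‖(p : C)‖ := (inv_mul_cancel₀ hp0.ne').symm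
      _ ≤ ‖((𝓛.Λ i : Cˣ) : C)‖ * ‖(p : C)‖ := by gcongr
      _ < ‖((𝓛.Λ i : Cˣ) : C)‖ * ‖x‖ := mul_lt_mul_of_pos_left hx (hΛpos i)
  -- the second order terms
  have hκ : ∀ i, ∃ κ : OO C, (κ : C) = -(mu i : C) * (p * (𝓛.Λ i : C))⁻¹ := by
    intro i
    refine ⟨⟨_, ?_⟩, rfl⟩
    rw [mem_OO, norm_mul, norm_neg, norm_inv, norm_mul, ← div_eq_mul_inv,
      div_le_one (mul_pos hp0 (hΛpos i))]
    exact hmn i
  choose κ hκ using hκ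
  -- the local data for a choice of the constants
  have hne : ∀ (c : Fin n → QA), (∀ i, c i ∈ Γ i) → ∀ i, φ (c i) ≠ 0 := fun c hc i =>
    (map_ne_zero φ).2 fun h => hΓ0 i (h ▸ hc i)
  let mk : ∀ c : Fin n → QA, (∀ i, c i ∈ Γ i) → Loc C p k n 𝒞.N W M d D := fun c hc =>
    { 𝓛 with
      Λ := fun i => Units.mk0 (φ (c i)) (hne c hc i) * 𝓛.Λ i
      hΛ := fun i => by
        rw [mul_assoc]
        exact mul_mem (GG_of_close (hΓi i _ (hc i)).1 (hΓi i _ (hc i)).2 (by simp)) (𝓛.hΛ i)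
      tm := fun _ => 0
      htm := fun i => by
        rw [norm_zero]
        positivity }
  have hmkPt : ∀ c hc x, 𝓛.Pt x → (mk c hc).Pt x := fun c hc x h => ⟨h.r1, h.r1', h.r2⟩
  have hloc : ∀ c : Fin n → QA, ∃ G : ℕ, ∀ hc : (∀ i, c i ∈ Γ i), ∀ (X : Fin n → QA)
      (x : Fin n → C) (tq : Fin n → C), 𝓛.Pt x → Tq (mk c hc) (T ^ 12) κ x X tq →
      ∀ (r : ℕ) (Z : SpecialDatum n r), r + 2 ≤ n → (fun i => rA (X i)) ∈ Z.locus →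
      ∃ j l : Fin n, j ≠ l ∧ ∃ N' : ℕ, 0 < N' ∧ N' ≤ G ∧
        PsiE ιZ (mP N') (mD N') (rA (X j)) (rA (X l)) = 0 := by
    intro c
    by_cases hc : ∀ i, c i ∈ Γ i
    · obtain ⟨G, hG⟩ := local_main3 (mk c hc) (T ^ 12) κ
      exact ⟨G, fun hc' X x tq hx hT => hG X x tq (hmkPt c hc x hx) hT⟩
    · exact ⟨0, fun h => absurd h hc⟩
  choose G hG using hloc
  refine ⟨hlam0, ?_, ∑ c ∈ Fintype.piFinset Γ, G c, ?_⟩
  · intro l j hlj ρ hρ h0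
    have hρn := hUr l j hlj ρ hρ
    have h1 := hs1 j (φ ρ) (by rw [hρn]; exact hp1)
    refine eval_large (hPc j) (by rw [leadingCoeff_map]; exact hUl j) h1 ?_
    have h2 : (𝓛.Λ j : C) * φ ρ + mu j = φ ((lam j : QA) * ρ + (mu j : QA)) := by
      rw [map_add, map_mul, map_ratCast, map_ratCast, hΛ]
    rw [h2, eval_map_apply, h0, map_zero]
  intro s hs X₀ hX₀ r Z hr hZ
  have hXφ : ∀ i, E2 φ (φ (X₀ i)) ((𝓛.Λ i : C) * φ (s i) + mu i) (R i) = 0 := by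
    intro i
    have h1 := congrArg φ (hX₀ i)
    rw [map_zero, map_E2, RingHom.comp_id] at h1
    have h2 : (𝓛.Λ i : C) * φ (s i) + mu i = φ ((lam i : QA) * s i + (mu i : QA)) := by
      rw [map_add, map_mul, map_ratCast, map_ratCast, hΛ]
    rw [h2]
    exact h1
  -- the branches
  have ht : ∀ i, ∃ (γ : QA) (t : C) (κ' m : ℕ), γ ∈ Γ i ∧ (‖(p : C)‖ < ‖φ (s i)‖ →
      1 < ‖φ (X₀ i)‖ ∧ t ≠ 0 ∧ 0 < κ' ∧ κ' ≤ T ∧ 0 < m ∧ m ≤ T ∧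
      t ^ κ' = qT (φ.comp iA) (φ (X₀ i)) ^ m ∧
      (‖φ (s i)‖ < ‖(p : C)‖⁻¹ →
        ‖t * (φ γ * 𝓛.Λ i * φ (s i)) - 1‖ ≤ ‖(p : C)‖ * ‖φ (s i)‖⁻¹) ∧
      (‖φ (s i)‖ = 1 → ‖t * (φ γ * 𝓛.Λ i * φ (s i)) -
          (1 + -(mu i : C) * ((𝓛.Λ i : C) * φ (s i))⁻¹)‖ ≤ ‖(p : C)‖ ^ 2)) := by
    intro i
    by_cases h : ‖(p : C)‖ < ‖φ (s i)‖
    · obtain ⟨hJ, κ', m, M₀, hκ0, hκT, hm0, hmT, hM₀, hJs, c, hc0, hE0, hcr, hb⟩ :=
        branch φ (hBD i) (hmon i) (fun q hq h0 => hUi i _ (hUcf i q hq) h0)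
          (fun k m M₀ hk hm hM c hc hE hcr => hUi i c (hUrt i k m M₀ hk hm hM hE c hcr) hc)
          (hs1 i _ h) (hXφ i)
      obtain ⟨γ, hγ, hγc⟩ := hΓγ i κ' m M₀ hκ0 hκT hmT hM₀ hE0 c hc0 hcr
      have hγ0 : φ γ ≠ 0 := (map_ne_zero φ).2 fun h => hΓ0 i (h ▸ hγ)
      obtain ⟨t, ht0, htk, ht1, ht2⟩ := exp_x hp0 hp1 (psi_norm φ) hκ0 (hkn κ' hκ0 hκT)
        (show m ≤ T * T by nlinarith) hTT (γ := φ γ) (c := φ c)
        (by rw [← map_pow, hγc, map_pow]) hγ0 (𝓛.Λ i) (μ := (mu i : C)) (hΛn i) (hmn i) h hJ hJs hb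
      exact ⟨γ, t, κ', m, hγ, fun _ => ⟨hJ, ht0, hκ0, hκT, hm0, hmT, htk, ht1, ht2⟩⟩
    · exact ⟨1, 0, 0, 0, hΓ1 i, fun h' => absurd h' h⟩
  choose γ t κ' m hγ ht using ht
  have hTq : Tq (mk γ hγ) (T ^ 12) κ (fun i => φ (s i)) X₀ t := by
    refine ⟨fun i hi => ?_, fun i hi => (ht i hi).2.1, fun i hi hi' => ?_,
      fun i hi => ?_, ?_⟩
    · show 1 < ‖𝓛.φ (X₀ i)‖
      rw [hφ]
      exact (ht i hi).1
    · exact (ht i hi).2.2.2.2.2.2.2.1 hi'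
    · have h1 := (ht i (by rw [hi]; exact hp1)).2.2.2.2.2.2.2.2 hi
      have h2 : -(mu i : C) * ((𝓛.Λ i : C) * φ (s i))⁻¹ = p * (κ i * (φ (s i))⁻¹) := by
        rw [hκ i, mul_inv, mul_inv]
        have h3 : (p : C) * (p : C)⁻¹ = 1 := mul_inv_cancel₀ hpC
        calc -(mu i : C) * (((𝓛.Λ i : Cˣ) : C)⁻¹ * (φ (s i))⁻¹) =
            ((p : C) * (p : C)⁻¹) * (-(mu i : C) * (((𝓛.Λ i : Cˣ) : C)⁻¹ * (φ (s i))⁻¹)) := by
              rw [h3, one_mul]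
          _ = _ := by ring
      rw [h2] at h1
      exact h1
    · intro i l hi hl τ z a b c d' hdet hz hτ hz'
      obtain ⟨-, -, hi1, hi2, hi3, hi4, hi5, -, -⟩ := ht i hi
      obtain ⟨-, -, hl1, hl2, hl3, hl4, hl5, -, -⟩ := ht l hl
      obtain ⟨A, B, g, ζ, hA, hB, hAB, hg, hζ, hrel, N', hN'0, hN', hΨ⟩ := rel2
        (psi_norm φ) rA_comp rfl hdet hz hτ hz' (ht i hi).1 hi1 hl1 hi3 hl3 hi5 hl5
      refine ⟨A, B, g, ζ, hA, hB, hAB, hg, hζ, hrel, N', hN'0, hN'.trans ?_, ?_⟩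
      · have h1 : (κ' i * m l * (κ' l * m i)) ^ 2 * (m i * m l) ^ 2 ≤ T ^ 12 := by
          calc (κ' i * m l * (κ' l * m i)) ^ 2 * (m i * m l) ^ 2 ≤
              (T * T * (T * T)) ^ 2 * (T * T) ^ 2 := by gcongr
            _ = T ^ 12 := by ring
        gcongr
      · rw [hτ, hz']
        exact hΨ
  obtain ⟨j, l, hjl, N', hN'0, hN', hΨ⟩ := hG γ hγ X₀ (fun i => φ (s i)) t (hPt s hs) hTq r Z hr hZ
  refine ⟨j, l, hjl, N', hN'0, hN'.trans ?_, hΨ⟩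
  exact Finset.single_le_sum (f := G) (fun _ _ => Nat.zero_le _) (Fintype.mem_piFinset.2 hγ)

end Pool.Agent.Y92.ZH
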